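import Pool.Agent.K3h3.MK.Main

/-!
# Asymptotic one-sided inequalities for one degree class: the main argument
-/

set_option autoImplicit false
set_option linter.unusedSectionVars false
set_option linter.style.haveILetI false

open scoped BigOperators Classical

noncomputable section

namespace Pool.Agent.K3h3.MK

open Pool.Agent.Helper884 Pool.Agent.H254R3.IN Pool.Agent.Q288.MB SemidirectProduct
open Pool.Agent.Q90.WR (irr_of_norm deg_pos irr_comp B_nat norm_equiv)
open Pool.Agent.K3h3.KB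
open IC (Irr)

variable (p : ℕ) [hp : Fact p.Prime]

/-- the augmentation -/
def aug : RR p →ₐ[ℤ] ℤ := MonoidAlgebra.lift ℤ ℤ (ZMod p)ˣ 1

theorem aug_single (u : (ZMod p)ˣ) (a : ℤ) : aug p (MonoidAlgebra.single u a) = a := by
  unfold aug
  simp

theorem aug_wt (G : Type) [Group G] [Finite G] : aug p (wt (cl p) G) = Nat.card (X p G) := by
  rw [wt_cl, map_sum]
  simp_rw [aug_single]
  rw [Finset.sum_const, Finset.card_univ, nsmul_eq_mul, mul_one, Nat.card_eq_fintype_card]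

theorem aug_eq_sum (x : RR p) : aug p x = ∑ v : (ZMod p)ˣ, x.coeff v := by
  have hx : x = ∑ u : (ZMod p)ˣ, MonoidAlgebra.single u (x.coeff u) := by
    ext v
    rw [MonoidAlgebra.coeff_sum, Finsupp.finsetSum_apply]
    simp_rw [MonoidAlgebra.coeff_single, Finsupp.single_apply]
    simp
  conv_lhs => rw [hx]
  rw [map_sum]
  simp_rw [aug_single]

theorem card_X_prod (G H : Type) [Group G] [Group H] [Finite G] [Finite H] :
    Nat.card (X p (G × H)) = Nat.card (X p G) * Nat.card (X p H) := by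
  have h := aug_wt p (G × H)
  rw [wt_prod, map_mul, aug_wt, aug_wt] at h
  exact_mod_cast h.symm

theorem card_X_congr {G H : Type} [Group G] [Group H] [Finite G] [Finite H] (e : G ≃* H) :
    Nat.card (X p G) = Nat.card (X p H) := by
  have h := aug_wt p G
  rw [wt_congr (cl p) e, aug_wt] at h
  exact_mod_cast h.symm

/-- `wt` of the normalizer in a product, for any Sylow subgroup -/
theorem wt_NN_prod {G H : Type} [Group G] [Group H] [Finite G] [Finite H] (P : Sylow p G)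
    (Q : Sylow p H) (R : Sylow p (G × H)) :
    wt (cl p) (NN R) = wt (cl p) (NN P) * wt (cl p) (NN Q) := by
  obtain ⟨R0, ⟨e⟩⟩ := exists_prod P Q
  rw [wt_NN (cl p) R R0, wt_congr (cl p) e, wt_prod]

theorem card_NN_prod {G H : Type} [Group G] [Group H] [Finite G] [Finite H] (P : Sylow p G)
    (Q : Sylow p H) (R : Sylow p (G × H)) :
    Nat.card (X p (NN R)) = Nat.card (X p (NN P)) * Nat.card (X p (NN Q)) := by
  have h := aug_wt p (NN R)
  rw [wt_NN_prod p P Q R, map_mul, aug_wt, aug_wt] at h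
  exact_mod_cast h.symm

/-- a class of pairs: `F true` is the group, `F false` the normalizer of the Sylow subgroup, or
conversely -/
def sd (s : Bool) {G : Type} [Group G] (P : Sylow p G) : Subgroup G := if s then ⊤ else NN P

theorem wt_sd_true {G : Type} [Group G] [Finite G] (P : Sylow p G) :
    wt (cl p) (sd p true P) = wt (cl p) G := wt_congr (cl p) Subgroup.topEquiv

theorem wt_sd_false {G : Type} [Group G] [Finite G] (P : Sylow p G) :
    wt (cl p) (sd p false P) = wt (cl p) (NN P) := rfl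

theorem wt_sd_prod (s : Bool) {G H : Type} [Group G] [Group H] [Finite G] [Finite H]
    (P : Sylow p G) (Q : Sylow p H) (R : Sylow p (G × H)) :
    wt (cl p) (sd p s R) = wt (cl p) (sd p s P) * wt (cl p) (sd p s Q) := by
  cases s
  · exact wt_NN_prod p P Q R
  · rw [wt_sd_true, wt_sd_true, wt_sd_true, wt_prod]

theorem card_sd_prod (s : Bool) {G H : Type} [Group G] [Group H] [Finite G] [Finite H]
    (P : Sylow p G) (Q : Sylow p H) (R : Sylow p (G × H)) :
    Nat.card (X p (sd p s R)) = Nat.card (X p (sd p s P)) * Nat.card (X p (sd p s Q)) := by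
  have h := aug_wt p (sd p s R)
  rw [wt_sd_prod p s P Q R, map_mul, aug_wt, aug_wt] at h
  exact_mod_cast h.symm

theorem wt_sd_coprime (s : Bool) {H : Type} [Group H] [Finite H] (hH : ¬ p ∣ Nat.card H)
    (Q : Sylow p H) : wt (cl p) (sd p s Q) = wt (cl p) H := by
  cases s
  · exact wt_NN_of_coprime (cl p) hH Q
  · exact wt_sd_true p Q

/-- the number of the characters of degree prime to `p` in terms of the coefficients -/
theorem card_X_eq (G : Type) [Group G] [Finite G] :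
    (Nat.card (X p G) : ℤ) = ∑ v : (ZMod p)ˣ, (wt (cl p) G).coeff v := by
  rw [← aug_wt, aug_eq_sum]

/-- the trivial character -/
theorem card_X_pos (G : Type) [Group G] [Finite G] : 0 < Nat.card (X p G) := by
  haveI := Fintype.ofFinite G
  have h1 : IsIrr (fun _ : G => (1 : ℂ)) := by
    have := lin_irr (G := G) 1
    simpa using this
  have h2 : ndeg (fun _ : G => (1 : ℂ)) = 1 := ndeg_eq (by simp)
  have h3 : X p G := ⟨_, h1, by rw [h2]; simp⟩
  haveI : Nonempty (X p G) := ⟨h3⟩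
  exact Nat.card_pos

section

variable (𝒢 : (G : Type) → [Group G] → Prop)
    (hprod : ∀ (G H : Type) [Group G] [Finite G] [Group H] [Finite H], 𝒢 G → IsMetacyclic H →
      ¬ p ∣ Nat.card H → 𝒢 (G × H))
    (hsq : ∀ (G : Type) [Group G] [Finite G], 𝒢 G → 𝒢 (G × G))

include hsq in
/-- the powers -/
theorem exists_pow {G : Type} [Group G] [Finite G] (hG : 𝒢 G) (P : Sylow p G) : ∀ j : ℕ,
    ∃ (K : Type) (_ : Group K) (_ : Finite K) (R : Sylow p K), 𝒢 K ∧
      Nat.card K = Nat.card G ^ 2 ^ j ∧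
      ∀ s, Nat.card (X p (sd p s R)) = Nat.card (X p (sd p s P)) ^ 2 ^ j := by
  intro j
  induction j with
  | zero => exact ⟨G, inferInstance, inferInstance, P, hG, by simp, fun s => by simp⟩
  | succ j ih =>
    obtain ⟨K, i1, i2, R, h1, h2, h3⟩ := ih
    refine ⟨K × K, inferInstance, inferInstance, default, hsq K h1, ?_, fun s => ?_⟩
    · rw [Nat.card_prod, h2, ← pow_add, pow_succ, mul_two]
    · rw [card_sd_prod p s R R default, h3, ← pow_add, pow_succ, mul_two]

/-- a real number whose powers are bounded by `C x ^ n` is at most `x` -/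
theorem le_of_pow {r x C : ℝ} (hx : 0 < x) (h : ∀ j : ℕ, r ^ 2 ^ j ≤ C * x ^ 2 ^ j) :
    r ≤ x := by
  by_contra hlt
  push Not at hlt
  have h1 : 1 < r / x := (one_lt_div hx).mpr hlt
  obtain ⟨n, hn⟩ := pow_unbounded_of_one_lt C h1
  have h2 := h n
  have h3 : (r / x) ^ n ≤ (r / x) ^ 2 ^ n :=
    pow_le_pow_right₀ h1.le (Nat.lt_pow_self (by norm_num)).le
  have h4 : (r / x) ^ 2 ^ n ≤ C := by
    rw [div_pow, div_le_iff₀ (pow_pos hx _)]
    exact h2
  linarith

include hsq in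
/-- **The tensor power trick.** -/
theorem total_le (s : Bool)
    (H : ∀ ε : ℝ, 0 < ε → ∃ C : ℝ, ∀ (G : Type) [Group G] [Finite G] (P : Sylow p G), 𝒢 G →
      (Nat.card (X p (sd p s P)) : ℝ) ≤ C * (Nat.card G : ℝ) ^ ε * Nat.card (X p (sd p (!s) P)))
    {G : Type} [Group G] [Finite G] (hG : 𝒢 G) (P : Sylow p G) :
    Nat.card (X p (sd p s P)) ≤ Nat.card (X p (sd p (!s) P)) := by
  have hG1 : (1 : ℝ) ≤ Nat.card G := by exact_mod_cast Nat.card_pos (α := G)
  have hb : (0 : ℝ) < Nat.card (X p (sd p (!s) P)) := by exact_mod_cast card_X_pos p _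
  have h1 : ∀ ε : ℝ, 0 < ε → (Nat.card (X p (sd p s P)) : ℝ) ≤
      (Nat.card G : ℝ) ^ ε * Nat.card (X p (sd p (!s) P)) := by
    intro ε hε
    obtain ⟨C, hC⟩ := H ε hε
    refine le_of_pow (C := C)
      (mul_pos (Real.rpow_pos_of_pos (by linarith) _) hb) fun j => ?_
    obtain ⟨K, i1, i2, R, h2, h3, h4⟩ := exists_pow p 𝒢 hsq hG P j
    have h5 := hC K R h2
    rw [h4, h4, h3] at h5
    push_cast at h5
    refine h5.trans (le_of_eq ?_)
    rw [mul_pow, ← Real.rpow_natCast ((Nat.card G : ℝ) ^ ε), ← Real.rpow_mul (by linarith),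
      ← Real.rpow_natCast (Nat.card G : ℝ), ← Real.rpow_mul (by linarith), mul_comm ε]
    ring
  have h2 : Filter.Tendsto (fun ε : ℝ => (Nat.card G : ℝ) ^ ε * Nat.card (X p (sd p (!s) P)))
      (nhdsWithin 0 (Set.Ioi 0)) (nhds ((Nat.card G : ℝ) ^ (0 : ℝ) *
        Nat.card (X p (sd p (!s) P)))) := by
    refine Filter.Tendsto.mono_left ?_ nhdsWithin_le_nhds
    have hc : Continuous fun ε : ℝ => (Nat.card G : ℝ) ^ ε * Nat.card (X p (sd p (!s) P)) :=
      (Real.continuous_const_rpow (by linarith)).mul continuous_const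
    exact hc.tendsto 0
  have h3 : (Nat.card (X p (sd p s P)) : ℝ) ≤
      (Nat.card G : ℝ) ^ (0 : ℝ) * Nat.card (X p (sd p (!s) P)) :=
    ge_of_tendsto h2 (Filter.eventually_of_mem self_mem_nhdsWithin fun ε hε => h1 ε hε)
  rw [Real.rpow_zero, one_mul] at h3
  exact_mod_cast h3

include hprod in
/-- **All classes from one class.** -/
theorem class_le (s : Bool) (b : (ZMod p)ˣ)
    (H : ∀ ε : ℝ, 0 < ε → ∃ C : ℝ, ∀ (G : Type) [Group G] [Finite G] (P : Sylow p G), 𝒢 G →
      C ≤ Nat.card G → (((wt (cl p) (sd p (!s) P)).coeff (b ^ 2) : ℤ) : ℝ) ≤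
        ((wt (cl p) (sd p s P)).coeff (b ^ 2) : ℤ) + ε * Nat.card (X p (sd p s P)))
    {G : Type} [Group G] [Finite G] (hG : 𝒢 G) (P : Sylow p G) (v : (ZMod p)ˣ) :
    (wt (cl p) (sd p (!s) P)).coeff v ≤ (wt (cl p) (sd p s P)).coeff v := by
  by_cases hv : ∃ u, u ^ 2 = v
  swap
  · push Not at hv
    rw [coeff_nonsq p _ hv, coeff_nonsq p _ hv]
  obtain ⟨u, rfl⟩ := hv
  obtain ⟨a, ha0, hap, -, h, ha⟩ := exists_rep p (q := p + 1) (by omega) (b * u⁻¹)
  have e : b ^ 2 * ((Units.mk0 (a : ZMod p) h) ^ 2)⁻¹ = u ^ 2 := by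
    rw [ha, mul_pow, inv_pow, mul_inv, inv_inv, mul_inv_cancel_left]
  set A := wt (cl p) (sd p (!s) P) with hA
  set B := wt (cl p) (sd p s P) with hB
  set n := Nat.card (X p (sd p s P)) with hn
  by_contra hlt
  push Not at hlt
  have hlt' : B.coeff (u ^ 2) + 1 ≤ A.coeff (u ^ 2) := hlt
  have hnpos : (0 : ℝ) < n := by exact_mod_cast card_X_pos p _
  -- choose `ε = 1 / (4 n)`
  obtain ⟨C, hC⟩ := H (1 / (4 * n)) (by positivity)
  -- a bound for the other terms
  set T : ℝ := |((A.coeff (b ^ 2) : ℤ) : ℝ)| + |((B.coeff (b ^ 2) : ℤ) : ℝ)| with hT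
  obtain ⟨Q, k, hQ, hQC, hQk, -⟩ := exists_prime (q := 3) Nat.prime_three ha0 (by norm_num)
    (max ⌈C⌉₊ (max p (a * ⌈4 * (a * T) + a⌉₊ + 1)))
  haveI : Fact Q.Prime := ⟨hQ⟩
  have hQ1 : ⌈C⌉₊ < Q := lt_of_le_of_lt (le_max_left _ _) hQC
  have hQ2 : p < Q := lt_of_le_of_lt ((le_max_left _ _).trans (le_max_right _ _)) hQC
  have hQ3 : a * ⌈4 * (a * T) + a⌉₊ + 1 < Q :=
    lt_of_le_of_lt ((le_max_right _ _).trans (le_max_right _ _)) hQC
  have hk : ⌈4 * (a * T) + a⌉₊ < k := by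
    rw [hQk, add_comm 1] at hQ3
    have h1 : a * ⌈4 * (a * T) + a⌉₊ < a * k := by omega
    exact Nat.lt_of_mul_lt_mul_left h1
  have hk' : 4 * (a * T) + a < (k : ℝ) := lt_of_le_of_lt (Nat.le_ceil _) (by exact_mod_cast hk)
  obtain ⟨H', i1, i2, h1, h2, h3, h4⟩ := exists_frob p ha0 hQk hap (by omega)
  have hCcard : C ≤ Nat.card (G × H') := by
    have h5 : ⌈C⌉₊ ≤ Nat.card (G × H') := by
      rw [Nat.card_prod, h2]
      calc ⌈C⌉₊ ≤ Q := hQ1.le
        _ ≤ Q * a := Nat.le_mul_of_pos_right _ (Nat.pos_of_ne_zero ha0)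
        _ ≤ Nat.card G * (Q * a) := Nat.le_mul_of_pos_left _ Nat.card_pos
    exact (Nat.le_ceil _).trans (by exact_mod_cast h5)
  have h5 := hC (G × H') default (hprod G H' hG h1 h3) hCcard
  rw [wt_sd_prod p s P (default : Sylow p H'), wt_sd_prod p (!s) P (default : Sylow p H'),
    wt_sd_coprime p s h3, wt_sd_coprime p (!s) h3, h4, card_sd_prod p s P (default : Sylow p H'),
    ← hA, ← hB, ← hn] at h5
  have h6 : ∀ Z : RR p, (Z * ((k : RR p) * cl p a + (a : RR p))).coeff (b ^ 2) =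
      (k : ℤ) * Z.coeff (u ^ 2) + (a : ℤ) * Z.coeff (b ^ 2) := by
    intro Z
    have e1 : (Z * ((k : RR p) * cl p a)).coeff (b ^ 2) = (k : ℤ) * Z.coeff (u ^ 2) := by
      rw [mul_left_comm, coeff_natCast_mul, cl_apply p h, coeff_mul_single', e]
    have e2 : (Z * (a : RR p)).coeff (b ^ 2) = (a : ℤ) * Z.coeff (b ^ 2) := by
      rw [mul_comm, coeff_natCast_mul]
    rw [mul_add, MonoidAlgebra.coeff_add, Finsupp.add_apply, e1, e2]
  have h7 : Nat.card (X p (sd p s (default : Sylow p H'))) = k + a := by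
    have h8 := aug_wt p (sd p s (default : Sylow p H'))
    rw [wt_sd_coprime p s h3, h4, map_add, map_mul, map_natCast, map_natCast, cl_apply p h,
      aug_single, mul_one] at h8
    exact_mod_cast h8.symm
  rw [h6, h6, h7] at h5
  push_cast at h5
  -- contradiction
  have hkpos : (0 : ℝ) < k := by
    have : (0 : ℝ) ≤ 4 * (a * T) + a := by positivity
    linarith
  have h8 : ((B.coeff (u ^ 2) : ℤ) : ℝ) + 1 ≤ ((A.coeff (u ^ 2) : ℤ) : ℝ) := by exact_mod_cast hlt'
  have h9 : (1 : ℝ) / (4 * n) * (n * (k + a)) = (k + a) / 4 := by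
    field_simp
  rw [h9] at h5
  have h10 := le_abs_self (-((A.coeff (b ^ 2) : ℤ) : ℝ))
  have h11 := le_abs_self ((B.coeff (b ^ 2) : ℤ) : ℝ)
  rw [abs_neg] at h10
  have ha : (0 : ℝ) < a := by exact_mod_cast Nat.pos_of_ne_zero ha0
  have h12 : (a : ℝ) * (((B.coeff (b ^ 2) : ℤ) : ℝ) - ((A.coeff (b ^ 2) : ℤ) : ℝ)) ≤ a * T :=
    mul_le_mul_of_nonneg_left (by linarith) ha.le
  have h13 : (k : ℝ) * ((B.coeff (u ^ 2) : ℤ) : ℝ) + k ≤ k * ((A.coeff (u ^ 2) : ℤ) : ℝ) := by
    have := mul_le_mul_of_nonneg_left h8 hkpos.le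
    linarith
  nlinarith

include hprod hsq in
/-- **The main argument.** -/
theorem main_asy (s : Bool) (b : (ZMod p)ˣ)
    (H : ∀ ε : ℝ, 0 < ε → ∃ C : ℝ, ∀ (G : Type) [Group G] [Finite G] (P : Sylow p G), 𝒢 G →
      (Nat.card (X p (sd p s P)) : ℝ) ≤ C * (Nat.card G : ℝ) ^ ε * Nat.card (X p (sd p (!s) P)) ∧
      (C ≤ Nat.card G → (((wt (cl p) (sd p (!s) P)).coeff (b ^ 2) : ℤ) : ℝ) ≤
        ((wt (cl p) (sd p s P)).coeff (b ^ 2) : ℤ) + ε * Nat.card (X p (sd p s P))))
    {G : Type} [Group G] [Finite G] (hG : 𝒢 G) (P : Sylow p G) :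
    wt (cl p) G = wt (cl p) (NN P) := by
  have h1 := total_le p 𝒢 hsq s (fun ε hε => (H ε hε).imp fun C hC G _ _ P hG => (hC G P hG).1)
    hG P
  have h2 := class_le p 𝒢 hprod s b
    (fun ε hε => (H ε hε).imp fun C hC G _ _ P hG => (hC G P hG).2) hG P
  have h3 : wt (cl p) (sd p (!s) P) = wt (cl p) (sd p s P) := by
    have h4 : ∑ v : (ZMod p)ˣ, (wt (cl p) (sd p (!s) P)).coeff v =
        ∑ v : (ZMod p)ˣ, (wt (cl p) (sd p s P)).coeff v := by
      apply le_antisymm (Finset.sum_le_sum fun v _ => h2 v)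
      rw [← card_X_eq, ← card_X_eq]
      exact_mod_cast h1
    have h5 := (Finset.sum_eq_sum_iff_of_le fun v _ => h2 v).mp h4
    ext v
    exact h5 v (Finset.mem_univ v)
  cases s
  · rw [wt_sd_false] at h3
    rw [← h3]
    exact (wt_sd_true p P).symm
  · rw [wt_sd_true] at h3
    rw [← h3]
    rfl

end

end Pool.Agent.K3h3.MK
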