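import Pool.Agent.K3h3.KB.Cov2
import Pool.Agent.K3h3.KB.Wr

/-!
# The irreducible characters of semidirect products `N ⋊ S`, `S` abelian, when every irreducible
character of `N` is either invariant and extendible or has trivial stabiliser
-/

set_option autoImplicit false
set_option linter.unusedSectionVars false
set_option linter.style.haveILetI false

open scoped BigOperators Classical

noncomputable section

namespace Pool.Agent.K3h3.MK

open Pool.Agent.Helper884 Pool.Agent.H254R3.IN Pool.Agent.Q288.MB SemidirectProduct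
open Pool.Agent.Q90.WR (irr_of_norm deg_pos irr_comp B_nat)
open Pool.Agent.K3h3.KB
open Pool.Agent.Y62 (tw tw_irr)
open IC (Irr)

section

variable {N S : Type} [Group N] [CommGroup S] [Fintype N] [Fintype S] {φ : S →* MulAut N}

/-- linear characters of `S` as characters of `N ⋊ S` -/
def lam (φ : S →* MulAut N) (l : S →* ℂˣ) : (N ⋊[φ] S) →* ℂˣ := l.comp rightHom

theorem sum_tw {f : N ⋊[φ] S → ℂ} {θ : N → ℂ} (h : ∀ n, f (inl n) = θ n)
    (hinv : ∀ t : S, (fun n => θ (φ t n)) = θ) :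
    (∑ l : S →* ℂˣ, tw (lam φ l) f) = sInd φ θ := by
  funext x
  rw [Finset.sum_apply]
  have e : ∀ l : S →* ℂˣ, tw (lam φ l) f x = ((l x.right : ℂˣ) : ℂ) * f x := fun l => rfl
  simp_rw [e]
  rw [← Finset.sum_mul, sum_dual]
  unfold sInd
  by_cases hx : x.right = 1
  · rw [if_pos hx, if_pos hx]
    have h1 : ∀ t : S, θ (φ t x.left) = θ x.left := fun t => congrFun (hinv t) x.left
    simp_rw [h1]
    have h2 : x = inl x.left := by
      ext
      · simp
      · simp [hx]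
    rw [Finset.sum_const, Finset.card_univ, nsmul_eq_mul, Nat.card_eq_fintype_card, ← h x.left, ← h2]
  · rw [if_neg hx, if_neg hx, zero_mul]

theorem B_sInd_inv {θ : N → ℂ} (hθ : IsIrr θ) (hinv : ∀ t : S, (fun n => θ (φ t n)) = θ) :
    IC.B (sInd φ θ) (sInd φ θ) = Nat.card S := by
  rw [B_sInd θ (sInd_cl fun g y => hθ.conj g y)]
  have e : (fun n => sInd φ θ (inl n)) = ∑ _t : S, θ := by
    funext n
    rw [sInd_inl, Finset.sum_apply]
    exact Finset.sum_congr rfl fun t _ => congrFun (hinv t) n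
  rw [e, IC.B_comm, IC.B_sum_left]
  simp [IC.B_irr hθ hθ, Nat.card_eq_fintype_card]

theorem tw_lam_inj {f : N ⋊[φ] S → ℂ} {θ : N → ℂ} (hf : IsIrr f) (hθ : IsIrr θ)
    (h : ∀ n, f (inl n) = θ n) (hinv : ∀ t : S, (fun n => θ (φ t n)) = θ) :
    Function.Injective fun l : S →* ℂˣ => tw (lam φ l) f := by
  have h1 : ∀ l m : S →* ℂˣ, IC.B (tw (lam φ l) f) (tw (lam φ m) f) =
      if tw (lam φ l) f = tw (lam φ m) f then 1 else 0 := fun l m =>
    IC.B_irr (tw_irr _ hf) (tw_irr _ hf)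
  have h2 := B_sInd_inv hθ hinv
  rw [← sum_tw h hinv, IC.B_sum_left] at h2
  simp_rw [IC.B_comm _ (∑ l : S →* ℂˣ, tw (lam φ l) f), IC.B_sum_left, h1] at h2
  have h3 : (∑ x : S →* ℂˣ, ∑ x_1 : S →* ℂˣ,
      if tw (lam φ x_1) f = tw (lam φ x) f then (1 : ℂ) else 0) =
      ((Finset.univ.filter fun y : (S →* ℂˣ) × (S →* ℂˣ) =>
        tw (lam φ y.2) f = tw (lam φ y.1) f).card : ℂ) := by
    rw [← Fintype.sum_prod_type', Finset.sum_ite, Finset.sum_const_zero, add_zero,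
      Finset.sum_const, nsmul_eq_mul, mul_one]
  rw [h3] at h2
  have h4 : (Finset.univ.filter fun y : (S →* ℂˣ) × (S →* ℂˣ) =>
        tw (lam φ y.2) f = tw (lam φ y.1) f).card = Nat.card S := by exact_mod_cast h2
  have h5 : (Finset.univ.image fun l : S →* ℂˣ => (l, l)) ⊆
      (Finset.univ.filter fun y : (S →* ℂˣ) × (S →* ℂˣ) =>
        tw (lam φ y.2) f = tw (lam φ y.1) f) := by
    intro y hy
    obtain ⟨l, -, rfl⟩ := Finset.mem_image.mp hy
    simp
  have h6 : (Finset.univ.image fun l : S →* ℂˣ => (l, l)).card = Nat.card S := by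
    rw [Finset.card_image_of_injective _ fun a b hab => (Prod.ext_iff.mp hab).1, Finset.card_univ,
      ← Nat.card_eq_fintype_card, card_dual]
  have h7 := Finset.eq_of_subset_of_card_le h5 (by rw [h4, h6])
  intro l m hlm
  have h8 : (m, l) ∈ (Finset.univ.filter fun y : (S →* ℂˣ) × (S →* ℂˣ) =>
        tw (lam φ y.2) f = tw (lam φ y.1) f) := by
    rw [Finset.mem_filter]
    exact ⟨Finset.mem_univ _, hlm⟩
  rw [← h7, Finset.mem_image] at h8
  obtain ⟨k, -, hk⟩ := h8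
  have e := Prod.ext_iff.mp hk
  exact (e.2.symm.trans e.1 :)

theorem sInd_comp (θ : N → ℂ) (t : S) : sInd φ (fun n => θ (φ t n)) = sInd φ θ := by
  funext x
  unfold sInd
  split_ifs
  · refine Fintype.sum_equiv (Equiv.mulLeft t) _ _ fun u => ?_
    simp only [Equiv.coe_mulLeft, map_mul, MulAut.mul_apply]
  · rfl

/-- the restriction of an irreducible character has an irreducible constituent -/
theorem exists_below' {χ : N ⋊[φ] S → ℂ} (hχ : IsIrr χ) :
    ∃ θ : N → ℂ, IsIrr θ ∧ IC.B (sInd φ θ) χ ≠ 0 := by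
  by_contra hno
  push Not at hno
  have hcl : IC.IsClass (fun n => χ (inl n)) := by
    intro g y
    have := hχ.conj (inl g) (inl y)
    rw [← map_mul, ← map_inv, ← map_mul] at this
    exact this
  have h1 := IC.expand (fun n => χ (inl n)) hcl
  have h2 : (fun n => χ (inl n)) = 0 := by
    rw [h1]
    refine Finset.sum_eq_zero fun θ hθ => ?_
    have h3 := hno θ (mem_Irr.mp hθ)
    rw [B_sInd θ (fun g y => hχ.conj g y), IC.B_comm] at h3
    rw [h3, zero_smul]
  have h3 := congrFun h2 1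
  simp only [map_one, Pi.zero_apply] at h3
  obtain ⟨n, hn, h4⟩ := deg_pos hχ
  rw [h3] at h4
  have : (n : ℂ) ≠ 0 := by exact_mod_cast hn.ne'
  exact this h4.symm

/-- the hypothesis: the characters in `E` are invariant and extendible, the others have trivial
stabiliser -/
structure Good (φ : S →* MulAut N) (E : Set (N → ℂ)) : Prop where
  irr : ∀ θ ∈ E, IsIrr θ
  inv : ∀ θ ∈ E, ∀ t : S, (fun n => θ (φ t n)) = θ
  ext : ∀ θ ∈ E, ∃ f : N ⋊[φ] S → ℂ, IsIrr f ∧ ∀ n, f (inl n) = θ n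
  free : ∀ θ, IsIrr θ → θ ∉ E → ∀ t : S, t ≠ 1 → θ ≠ fun n => θ (φ t n)

variable {E : Set (N → ℂ)}

/-- an extension -/
def ex (h : Good φ E) (θ : N → ℂ) : N ⋊[φ] S → ℂ := if hθ : θ ∈ E then (h.ext θ hθ).choose else 0

theorem ex_irr (h : Good φ E) {θ : N → ℂ} (hθ : θ ∈ E) : IsIrr (ex h θ) := by
  unfold ex
  rw [dif_pos hθ]
  exact (h.ext θ hθ).choose_spec.1

theorem ex_inl (h : Good φ E) {θ : N → ℂ} (hθ : θ ∈ E) (n : N) : ex h θ (inl n) = θ n := by
  unfold ex
  rw [dif_pos hθ]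
  exact (h.ext θ hθ).choose_spec.2 n

theorem tw_inl (f : N ⋊[φ] S → ℂ) (l : S →* ℂˣ) (n : N) : tw (lam φ l) f (inl n) = f (inl n) := by
  unfold tw lam
  simp

theorem cover_sd (h : Good φ E) {χ : N ⋊[φ] S → ℂ} (hχ : IsIrr χ) :
    (∃ θ, IsIrr θ ∧ θ ∉ E ∧ sInd φ θ = χ) ∨ ∃ θ ∈ E, ∃ l : S →* ℂˣ, tw (lam φ l) (ex h θ) = χ := by
  obtain ⟨θ, hθ, h1⟩ := exists_below' hχ
  by_cases hE : θ ∈ E
  · right
    refine ⟨θ, hE, ?_⟩
    rw [← sum_tw (ex_inl h hE) (h.inv θ hE), IC.B_sum_left] at h1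
    obtain ⟨l, -, hl⟩ := Finset.exists_ne_zero_of_sum_ne_zero h1
    refine ⟨l, ?_⟩
    rw [IC.B_irr (tw_irr _ (ex_irr h hE)) hχ] at hl
    by_contra hne
    rw [if_neg hne] at hl
    exact hl rfl
  · left
    refine ⟨θ, hθ, hE, ?_⟩
    have hi := sInd_irr hθ (h.free θ hθ hE)
    rw [IC.B_irr hi hχ] at h1
    by_contra hne
    rw [if_neg hne] at h1
    exact h1 rfl

theorem ndeg_sInd {θ : N → ℂ} (h : IsIrr θ) : ndeg (sInd φ θ) = Nat.card S * ndeg θ := by
  apply ndeg_eq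
  rw [sInd_one, ← ndeg_cast h]
  push_cast
  rfl

theorem ndeg_tw (h : Good φ E) {θ : N → ℂ} (hθ : θ ∈ E) (l : S →* ℂˣ) :
    ndeg (tw (lam φ l) (ex h θ)) = ndeg θ := by
  apply ndeg_eq
  have e : (1 : N ⋊[φ] S) = inl 1 := (map_one inl).symm
  rw [e, tw_inl, ex_inl h hθ, ndeg_cast (h.irr θ hθ)]

/-- induced characters agree only for conjugate characters -/
theorem exists_conj {θ θ' : N → ℂ} (h1 : IsIrr θ) (h2 : IsIrr θ') (hi : IsIrr (sInd φ θ'))
    (e : sInd φ θ = sInd φ θ') : ∃ t : S, θ = fun n => θ' (φ t n) := by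
  have h3 : IC.B (sInd φ θ) (sInd φ θ') = 1 := by rw [e, IC.B_irr hi hi, if_pos rfl]
  rw [B_sInd θ (sInd_cl fun g y => h2.conj g y)] at h3
  have e2 : (fun n => sInd φ θ' (inl n)) = ∑ t : S, fun n => θ' (φ t n) := by
    funext n
    rw [sInd_inl, Finset.sum_apply]
  rw [e2, IC.B_comm, IC.B_sum_left] at h3
  obtain ⟨t, -, ht⟩ := Finset.exists_ne_zero_of_sum_ne_zero (h3 ▸ one_ne_zero)
  refine ⟨t, ?_⟩
  rw [IC.B_irr (irr_comp (φ t) h2) h1] at ht
  by_contra hne
  rw [if_neg fun h => hne h.symm] at ht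
  exact ht rfl

theorem card_fiber (h : Good φ E) {θ : N → ℂ} (hθ : IsIrr θ) (hE : θ ∉ E) :
    (((Irr N).filter (· ∉ E)).filter fun θ' => sInd φ θ' = sInd φ θ).card = Nat.card S := by
  have hi := sInd_irr hθ (h.free θ hθ hE)
  have e : (((Irr N).filter (· ∉ E)).filter fun θ' => sInd φ θ' = sInd φ θ) =
      Finset.univ.image fun t : S => fun n => θ (φ t n) := by
    ext θ'
    simp only [Finset.mem_filter, mem_Irr, Finset.mem_image, Finset.mem_univ, true_and]
    constructor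
    · rintro ⟨⟨h1, -⟩, h2⟩
      obtain ⟨t, ht⟩ := exists_conj h1 hθ hi h2
      exact ⟨t, ht.symm⟩
    · rintro ⟨t, rfl⟩
      refine ⟨⟨irr_comp (φ t) hθ, fun hin => hE ?_⟩, sInd_comp θ t⟩
      have h3 := h.inv _ hin t⁻¹
      have h4 : (fun n => θ (φ t (φ t⁻¹ n))) = θ := by
        funext n
        rw [← MulAut.mul_apply, ← map_mul, mul_inv_cancel, map_one, MulAut.one_apply]
      rw [h4] at h3
      rwa [← h3] at hin
  rw [e, Finset.card_image_of_injective, Finset.card_univ, Nat.card_eq_fintype_card]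
  intro t u htu
  by_contra hne
  refine h.free θ hθ hE (u * t⁻¹) (fun h0 => hne (mul_inv_eq_one.mp h0).symm) ?_
  funext n
  have h3 := congrFun htu (φ t⁻¹ n)
  simp only [← MulAut.mul_apply, ← map_mul, mul_inv_cancel, map_one, MulAut.one_apply] at h3
  exact h3

/-- **The sum of a function of the degree over the irreducible characters of `N ⋊ S`.** -/
theorem sum_irr_sd (h : Good φ E) {M : Type} [AddCommMonoid M] (F : ℕ → M) :
    Nat.card S • ∑ χ ∈ Irr (N ⋊[φ] S), F (ndeg χ) =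
      (∑ θ ∈ (Irr N).filter (· ∉ E), F (Nat.card S * ndeg θ)) +
        (Nat.card S ^ 2) • ∑ θ ∈ (Irr N).filter (· ∈ E), F (ndeg θ) := by
  set T := (Irr N).filter (· ∉ E) with hT
  set U := (Irr N).filter (· ∈ E) with hU
  have e : Irr (N ⋊[φ] S) = T.image (sInd φ) ∪
      (U ×ˢ (Finset.univ : Finset (S →* ℂˣ))).image fun y => tw (lam φ y.2) (ex h y.1) := by
    ext χ
    simp only [mem_Irr, Finset.mem_union, Finset.mem_image, hT, hU, Finset.mem_filter,
      Finset.mem_product, Finset.mem_univ, and_true, Prod.exists]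
    constructor
    · intro hχ
      rcases cover_sd h hχ with ⟨θ, h1, h2, h3⟩ | ⟨θ, h1, l, h3⟩
      · exact Or.inl ⟨θ, ⟨h1, h2⟩, h3⟩
      · exact Or.inr ⟨θ, l, ⟨h.irr θ h1, h1⟩, h3⟩
    · rintro (⟨θ, ⟨h1, h2⟩, rfl⟩ | ⟨θ, l, ⟨h1, h2⟩, rfl⟩)
      · exact sInd_irr h1 (h.free θ h1 h2)
      · exact tw_irr _ (ex_irr h h2)
  have hdis : Disjoint (T.image (sInd φ))
      ((U ×ˢ (Finset.univ : Finset (S →* ℂˣ))).image fun y => tw (lam φ y.2) (ex h y.1)) := by
    rw [Finset.disjoint_left]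
    intro χ h1 h2
    simp only [Finset.mem_image, hT, hU, Finset.mem_filter, mem_Irr,
      Finset.mem_product, Finset.mem_univ, and_true, Prod.exists] at h1 h2
    obtain ⟨θ, ⟨h3, h4⟩, rfl⟩ := h1
    obtain ⟨θ', l, ⟨h5, h6⟩, h7⟩ := h2
    have hi := sInd_irr h3 (h.free θ h3 h4)
    have h8 : IC.B (sInd φ θ) (sInd φ θ) = 1 := by rw [IC.B_irr hi hi, if_pos rfl]
    have h9 : (fun n => sInd φ θ (inl n)) = θ' := by
      funext n
      rw [← h7, tw_inl, ex_inl h h6]
    rw [B_sInd θ (sInd_cl fun g y => h3.conj g y), h9, IC.B_irr h3 h5] at h8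
    by_cases hne : θ = θ'
    · exact h4 (hne ▸ h6)
    · rw [if_neg hne] at h8
      exact zero_ne_one h8
  have hinj : Set.InjOn (fun y : (N → ℂ) × (S →* ℂˣ) => tw (lam φ y.2) (ex h y.1))
      ((U ×ˢ (Finset.univ : Finset (S →* ℂˣ)) : Finset _) : Set ((N → ℂ) × (S →* ℂˣ))) := by
    rintro ⟨θ, l⟩ h1 ⟨θ', l'⟩ h2 h3
    simp only [Finset.coe_product, Set.mem_prod, Finset.mem_coe, hU, Finset.mem_filter, mem_Irr,
      Finset.coe_univ, Set.mem_univ, and_true] at h1 h2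
    have h4 : θ = θ' := by
      funext n
      have := congrFun h3 (inl n)
      simp only [tw_inl, ex_inl h h1.2, ex_inl h h2.2] at this
      exact this
    subst h4
    have h5 : l = l' := tw_lam_inj (ex_irr h h1.2) h1.1 (ex_inl h h1.2) (h.inv θ h1.2) h3
    rw [h5]
  rw [e, Finset.sum_union hdis, smul_add]
  congr 1
  · have h1 := Finset.sum_comp (s := T) (fun χ : N ⋊[φ] S → ℂ => F (ndeg χ)) (sInd φ)
    have h2 : ∑ θ ∈ T, F (ndeg (sInd φ θ)) = ∑ θ ∈ T, F (Nat.card S * ndeg θ) := by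
      refine Finset.sum_congr rfl fun θ hθ => ?_
      rw [hT, Finset.mem_filter, mem_Irr] at hθ
      rw [ndeg_sInd hθ.1]
    rw [← h2, h1, Finset.smul_sum]
    refine Finset.sum_congr rfl fun χ hχ => ?_
    obtain ⟨θ, hθ, rfl⟩ := Finset.mem_image.mp hχ
    rw [hT, Finset.mem_filter, mem_Irr] at hθ
    rw [hT, card_fiber h hθ.1 hθ.2]
  · rw [Finset.sum_image hinj, Finset.sum_product, pow_two, mul_smul]
    congr 1
    rw [Finset.smul_sum]
    refine Finset.sum_congr rfl fun θ hθ => ?_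
    rw [hU, Finset.mem_filter, mem_Irr] at hθ
    simp_rw [ndeg_tw h hθ.2]
    rw [Finset.sum_const, Finset.card_univ, ← Nat.card_eq_fintype_card, card_dual]

end

end Pool.Agent.K3h3.MK
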