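import Pool.Agent.K3h3.MK.Ext

/-!
# Weighted numbers of irreducible characters of direct products, of regular wreath products with
groups of prime order and of some Frobenius groups
-/

set_option autoImplicit false
set_option linter.unusedSectionVars false
set_option linter.style.haveILetI false

open scoped BigOperators Classical

noncomputable section

namespace Pool.Agent.K3h3.MK

open Pool.Agent.Helper884 Pool.Agent.H254R3.IN Pool.Agent.Q288.MB SemidirectProduct
open Pool.Agent.Q90.WR (irr_of_norm deg_pos irr_comp irr_comp_iff B_nat irr_nontrivial card_Irr_le)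
open Pool.Agent.Q99.AS (ten ten_irr ten_inj ten_cover)
open Pool.Agent.K3h3.KB
open Pool.Agent.Y62 (tw tw_irr)
open IC (Irr)

/-- `∑ w(χ(1))` over the irreducible characters of `G` -/
def wt {R : Type} [CommRing R] (w : ℕ →* R) (G : Type) [Group G] [Finite G] : R :=
  letI := Fintype.ofFinite G
  ∑ χ ∈ Irr G, w (ndeg χ)

section

variable {R : Type} [CommRing R] (w : ℕ →* R)

theorem wt_eq (G : Type) [Group G] [i : Fintype G] : wt w G = ∑ χ ∈ Irr G, w (ndeg χ) := by
  unfold wt
  have h : Fintype.ofFinite G = i := Subsingleton.elim _ _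
  rw [h]

theorem wt_congr {G H : Type} [Group G] [Group H] [Finite G] [Finite H] (e : G ≃* H) :
    wt w G = wt w H := by
  haveI := Fintype.ofFinite G
  haveI := Fintype.ofFinite H
  rw [wt_eq, wt_eq]
  refine Finset.sum_bij' (fun χ _ => fun h => χ (e.symm h)) (fun χ _ => fun g => χ (e g)) ?_ ?_ ?_ ?_ ?_
  · intro χ hχ
    exact mem_Irr.mpr (irr_comp e.symm (mem_Irr.mp hχ))
  · intro χ hχ
    exact mem_Irr.mpr (irr_comp e (mem_Irr.mp hχ))
  · intro χ _
    funext g
    simp
  · intro χ _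
    funext g
    simp
  · intro χ _
    unfold ndeg
    simp

theorem wt_prod (G H : Type) [Group G] [Group H] [Finite G] [Finite H] :
    wt w (G × H) = wt w G * wt w H := by
  haveI := Fintype.ofFinite G
  haveI := Fintype.ofFinite H
  rw [wt_eq, wt_eq, wt_eq, Finset.sum_mul_sum, ← Finset.sum_product']
  symm
  refine Finset.sum_bij (fun a _ => ten a.1 a.2) ?_ ?_ ?_ ?_
  · rintro ⟨θ, ψ⟩ h
    rw [Finset.mem_product] at h
    exact mem_Irr.mpr (ten_irr (mem_Irr.mp h.1) (mem_Irr.mp h.2))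
  · rintro ⟨θ, ψ⟩ h ⟨θ', ψ'⟩ h' e
    rw [Finset.mem_product] at h h'
    obtain ⟨e1, e2⟩ := ten_inj (mem_Irr.mp h.1) (mem_Irr.mp h.2) (mem_Irr.mp h'.1)
      (mem_Irr.mp h'.2) e
    exact Prod.ext e1 e2
  · intro χ hχ
    obtain ⟨θ, ψ, h1, h2, rfl⟩ := ten_cover (mem_Irr.mp hχ)
    exact ⟨(θ, ψ), Finset.mem_product.mpr ⟨mem_Irr.mpr h1, mem_Irr.mpr h2⟩, rfl⟩
  · rintro ⟨θ, ψ⟩ h
    rw [Finset.mem_product] at h
    rw [ndeg_ten (mem_Irr.mp h.1) (mem_Irr.mp h.2), map_mul]

/-! ### powers -/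

theorem cover_fin {G : Type} [Group G] [Fintype G] : ∀ (n : ℕ) (χ : (Fin n → G) → ℂ), IsIrr χ →
    ∃ ψ : Fin n → G → ℂ, (∀ i, IsIrr (ψ i)) ∧ χ = bt ψ
  | 0, χ, hχ => by
    refine ⟨fun i => i.elim0, fun i => i.elim0, ?_⟩
    have h1 := bt_irr_fin (G := G) 0 (fun i => i.elim0) (fun i => i.elim0)
    have h2 := IC.B_irr hχ h1
    by_contra hne
    rw [if_neg hne] at h2
    unfold IC.B at h2
    rw [mul_eq_zero] at h2
    rcases h2 with h2 | h2
    · exact inv_ne_zero IC.cardG_ne h2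
    · have h3 : ∀ g : Fin 0 → G, g = 1 := fun g => Subsingleton.elim _ _
      obtain ⟨n, hn, h4⟩ := deg_pos hχ
      rw [Fintype.sum_unique] at h2
      rw [h3 default, inv_one, h4] at h2
      have h5 : bt (fun i : Fin 0 => (i.elim0 : G → ℂ)) (1 : Fin 0 → G) = 1 := by simp [bt]
      rw [h5, mul_one] at h2
      exact hn.ne' (by exact_mod_cast h2)
  | n + 1, χ, hχ => by
    obtain ⟨θ, Ψ, h1, h2, h3⟩ := ten_cover (irr_comp (consE G n).symm hχ)
    obtain ⟨ψ, h4, rfl⟩ := cover_fin n Ψ h2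
    refine ⟨Fin.cons θ ψ, fun i => Fin.cases h1 h4 i, ?_⟩
    funext g
    have h5 := congrFun h3 (consE G n g)
    simp only [MulEquiv.symm_apply_apply] at h5
    rw [h5]
    unfold bt ten
    rw [Fin.prod_univ_succ]
    rfl

theorem cover_pi {I G : Type} [Group G] [Fintype G] [Fintype I] {χ : (I → G) → ℂ}
    (hχ : IsIrr χ) : ∃ ψ : I → G → ℂ, (∀ i, IsIrr (ψ i)) ∧ χ = bt ψ := by
  let e := Fintype.equivFin I
  obtain ⟨ψ, h1, h2⟩ := cover_fin _ _ (irr_comp (reE G e).symm hχ)
  refine ⟨fun i => ψ (e i), fun i => h1 _, ?_⟩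
  funext g
  have h3 := congrFun h2 (reE G e g)
  simp only [MulEquiv.symm_apply_apply] at h3
  rw [h3]
  unfold bt
  refine (Fintype.prod_equiv e _ _ fun i => ?_).symm
  simp [reE]

theorem wt_pi (I G : Type) [Group G] [Finite G] [Fintype I] :
    wt w (I → G) = wt w G ^ Fintype.card I := by
  haveI := Fintype.ofFinite G
  rw [wt_eq, wt_eq, ← Finset.card_univ, ← Finset.prod_const, Finset.prod_univ_sum]
  symm
  refine Finset.sum_bij (fun ψ _ => bt ψ) ?_ ?_ ?_ ?_
  · intro ψ h
    rw [Fintype.mem_piFinset] at h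
    exact mem_Irr.mpr (bt_irr fun i => mem_Irr.mp (h i))
  · intro ψ h ψ' h' e
    rw [Fintype.mem_piFinset] at h h'
    exact bt_inj (fun i => mem_Irr.mp (h i)) (fun i => mem_Irr.mp (h' i)) e
  · intro χ hχ
    obtain ⟨ψ, h1, rfl⟩ := cover_pi (mem_Irr.mp hχ)
    exact ⟨ψ, Fintype.mem_piFinset.mpr fun i => mem_Irr.mpr (h1 i), rfl⟩
  · intro ψ h
    rw [Fintype.mem_piFinset] at h
    rw [ndeg_bt fun i => mem_Irr.mp (h i), map_prod]

/-! ### wreath products with groups of prime order -/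

section wr

variable {G S : Type} [Group G] [CommGroup S] [Fintype G] [Fintype S]

/-- the invariant characters of the base group -/
def cst (G S : Type) [Group G] [Fintype S] : Set ((S → G) → ℂ) :=
  {χ | ∃ θ : G → ℂ, IsIrr θ ∧ χ = bt fun _ => θ}

theorem good_wr (hS : (Nat.card S).Prime) : Good (rAct G S) (cst G S) where
  irr := by
    rintro _ ⟨θ, hθ, rfl⟩
    exact bt_irr fun _ => hθ
  inv := by
    rintro _ ⟨θ, hθ, rfl⟩ t
    rw [bt_rAct]
  ext := by
    rintro _ ⟨θ, hθ, rfl⟩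
    exact exists_ext hθ
  free := by
    intro Θ hΘ hE t ht e
    apply hE
    obtain ⟨ψ, h1, rfl⟩ := cover_pi hΘ
    rw [bt_rAct] at e
    have e1 := bt_inj h1 (fun i => h1 _) e
    have e2 : ∀ (n : ℕ) (i : S), ψ (t ^ n * i) = ψ i := by
      intro n
      induction n with
      | zero => intro i; rw [pow_zero, one_mul]
      | succ n ih =>
        intro i
        rw [pow_succ, mul_assoc, ih, ← congrFun e1 i]
    refine ⟨ψ 1, h1 1, ?_⟩
    congr 1
    funext i
    haveI : Fact (Nat.card S).Prime := ⟨hS⟩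
    have h3 : i ∈ Subgroup.zpowers t := mem_zpowers_of_prime_card rfl ht
    rw [← mem_powers_iff_mem_zpowers] at h3
    obtain ⟨n, rfl⟩ := h3
    have := e2 n 1
    simpa using this

theorem filter_cst : (Irr (S → G)).filter (· ∈ cst G S) = (Irr G).image fun θ => bt fun _ : S => θ := by
  ext χ
  simp only [Finset.mem_filter, mem_Irr, Finset.mem_image]
  constructor
  · rintro ⟨-, θ, hθ, rfl⟩
    exact ⟨θ, hθ, rfl⟩
  · rintro ⟨θ, hθ, rfl⟩
    exact ⟨bt_irr fun _ => hθ, θ, hθ, rfl⟩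

theorem sum_cst [Nonempty S] {M : Type} [AddCommMonoid M] (F : ℕ → M) :
    ∑ Θ ∈ (Irr (S → G)).filter (· ∈ cst G S), F (ndeg Θ) =
      ∑ θ ∈ Irr G, F (ndeg θ ^ Nat.card S) := by
  rw [filter_cst, Finset.sum_image]
  · refine Finset.sum_congr rfl fun θ hθ => ?_
    rw [ndeg_bt fun _ => mem_Irr.mp hθ, Finset.prod_const, Finset.card_univ,
      Nat.card_eq_fintype_card]
  · intro θ hθ θ' hθ' e
    have := bt_inj (fun _ => mem_Irr.mp hθ) (fun _ => mem_Irr.mp hθ') e
    exact congrFun this (Classical.arbitrary S)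

/-- **The weighted number of characters of `G ≀ C_q`.** -/
theorem wt_wr (hS : (Nat.card S).Prime) :
    (Nat.card S : R) * wt w (Wr G S) = w (Nat.card S) *
      (wt w G ^ Nat.card S - ∑ θ ∈ Irr G, w (ndeg θ) ^ Nat.card S) +
        (Nat.card S : R) ^ 2 * ∑ θ ∈ Irr G, w (ndeg θ) ^ Nat.card S := by
  haveI : Nonempty S := ⟨1⟩
  have h1 := sum_irr_sd (good_wr (G := G) hS) (fun n => w n)
  rw [wt_eq]
  rw [nsmul_eq_mul] at h1
  rw [h1, nsmul_eq_mul, sum_cst (G := G) (S := S) fun n => w n]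
  push_cast
  simp_rw [map_pow]
  congr 1
  have h2 : wt w G ^ Nat.card S = ∑ Θ ∈ Irr (S → G), w (ndeg Θ) := by
    rw [← wt_eq, wt_pi, Nat.card_eq_fintype_card]
  rw [h2, ← Finset.sum_filter_add_sum_filter_not (Irr (S → G)) (· ∈ cst G S),
    sum_cst (G := G) (S := S) fun n => w n]
  simp_rw [map_pow]
  rw [add_sub_cancel_left, Finset.mul_sum]
  refine Finset.sum_congr rfl fun Θ _ => ?_
  rw [map_mul]

end wr

/-! ### irreducible characters of abelian groups -/

theorem lin_of_comm {N : Type} [CommGroup N] [Fintype N] {θ : N → ℂ} (hθ : IsIrr θ) :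
    ∃ l : N →* ℂˣ, θ = fun g => ((l g : ℂˣ) : ℂ) := by
  have h1 : (Finset.univ.image fun l : N →* ℂˣ => fun g => ((l g : ℂˣ) : ℂ)) ⊆ Irr N := by
    intro χ hχ
    obtain ⟨l, -, rfl⟩ := Finset.mem_image.mp hχ
    exact mem_Irr.mpr (lin_irr l)
  have h2 : (Finset.univ.image fun l : N →* ℂˣ => fun g => ((l g : ℂˣ) : ℂ)).card = Nat.card N := by
    rw [Finset.card_image_of_injective, Finset.card_univ, ← Nat.card_eq_fintype_card, card_dual]
    intro l m h
    ext g
    exact congrFun h g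
  have h3 := Finset.eq_of_subset_of_card_le h1 (by rw [h2]; exact card_Irr_le N)
  have h4 := mem_Irr.mpr hθ
  rw [← h3, Finset.mem_image] at h4
  obtain ⟨l, -, rfl⟩ := h4
  exact ⟨l, rfl⟩

theorem card_Irr_comm {N : Type} [CommGroup N] [Fintype N] : (Irr N).card = Nat.card N := by
  apply le_antisymm (card_Irr_le N)
  have h1 : (Finset.univ.image fun l : N →* ℂˣ => fun g => ((l g : ℂˣ) : ℂ)) ⊆ Irr N := by
    intro χ hχ
    obtain ⟨l, -, rfl⟩ := Finset.mem_image.mp hχ
    exact mem_Irr.mpr (lin_irr l)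
  have h2 : (Finset.univ.image fun l : N →* ℂˣ => fun g => ((l g : ℂˣ) : ℂ)).card = Nat.card N := by
    rw [Finset.card_image_of_injective, Finset.card_univ, ← Nat.card_eq_fintype_card, card_dual]
    intro l m h
    ext g
    exact congrFun h g
  rw [← h2]
  exact Finset.card_le_card h1

theorem ndeg_comm {N : Type} [CommGroup N] [Fintype N] {θ : N → ℂ} (hθ : IsIrr θ) :
    ndeg θ = 1 := by
  obtain ⟨l, rfl⟩ := lin_of_comm hθ
  apply ndeg_eq
  simp

/-! ### Frobenius groups -/

/-- multiplication of a ring by units -/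
def uAct (A : Type) [CommRing A] (S : Subgroup Aˣ) : S →* MulAut (Multiplicative A) where
  toFun u :=
    { toFun := fun x => Multiplicative.ofAdd (((u : Aˣ) : A) * Multiplicative.toAdd x)
      invFun := fun x => Multiplicative.ofAdd ((((u : Aˣ)⁻¹ : Aˣ) : A) * Multiplicative.toAdd x)
      left_inv := fun x => by simp
      right_inv := fun x => by simp
      map_mul' := fun x y => by simp [mul_add] }
  map_one' := by
    ext x
    simp
  map_mul' u v := by
    ext x
    simp [mul_assoc]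

/-- the trivial character -/
def triv (N : Type) : Set (N → ℂ) := {χ | χ = fun _ => 1}

theorem good_frob {Q : ℕ} [Fact Q.Prime] (S : Subgroup (ZMod Q)ˣ) :
    Good (uAct (ZMod Q) S) (triv (Multiplicative (ZMod Q))) where
  irr := by
    rintro _ rfl
    have := lin_irr (G := Multiplicative (ZMod Q)) 1
    simpa using this
  inv := by
    rintro _ rfl t
    rfl
  ext := by
    rintro _ rfl
    refine ⟨fun _ => 1, ?_, fun n => rfl⟩
    have := lin_irr (G := Multiplicative (ZMod Q) ⋊[uAct (ZMod Q) S] S) 1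
    simpa using this
  free := by
    intro θ hθ hE t ht e
    apply hE
    obtain ⟨l, rfl⟩ := lin_of_comm hθ
    have h1 : ((t : (ZMod Q)ˣ) : ZMod Q) - 1 ≠ 0 := by
      intro h
      apply ht
      apply Subtype.ext
      apply Units.ext
      exact sub_eq_zero.mp h
    have h2 : ∀ x : ZMod Q, l (Multiplicative.ofAdd ((((t : (ZMod Q)ˣ) : ZMod Q) - 1) * x)) = 1 := by
      intro x
      have h3 := congrFun e (Multiplicative.ofAdd x)
      have h4 : l (Multiplicative.ofAdd x) =
          l (Multiplicative.ofAdd (((t : (ZMod Q)ˣ) : ZMod Q) * x)) := Units.ext h3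
      have h5 : Multiplicative.ofAdd ((((t : (ZMod Q)ˣ) : ZMod Q) - 1) * x) =
          Multiplicative.ofAdd (((t : (ZMod Q)ˣ) : ZMod Q) * x) / Multiplicative.ofAdd x := by
        rw [sub_mul, one_mul, ofAdd_sub]
      rw [h5, map_div, ← h4, div_self']
    funext g
    have h6 := h2 ((((t : (ZMod Q)ˣ) : ZMod Q) - 1)⁻¹ * Multiplicative.toAdd g)
    rw [← mul_assoc, mul_inv_cancel₀ h1, one_mul, ofAdd_toAdd] at h6
    rw [h6, Units.val_one]

/-- **The weighted number of characters of `C_Q ⋊ C_a`.** -/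
theorem wt_frob {Q : ℕ} [Fact Q.Prime] (S : Subgroup (ZMod Q)ˣ) :
    (Nat.card S : R) * wt w (Multiplicative (ZMod Q) ⋊[uAct (ZMod Q) S] S) =
      ((Q - 1 : ℕ) : R) * w (Nat.card S) + (Nat.card S : R) ^ 2 := by
  haveI : Fintype (ZMod Q) := ZMod.fintype Q
  have h1 := sum_irr_sd (good_frob S) (fun n => w n)
  rw [wt_eq, ← nsmul_eq_mul]
  rw [h1]
  have h2 : (Irr (Multiplicative (ZMod Q))).filter (· ∈ triv (Multiplicative (ZMod Q))) =
      {fun _ => 1} := by
    ext χ
    simp only [Finset.mem_filter, mem_Irr, Finset.mem_singleton]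
    constructor
    · exact fun h => h.2
    · intro h
      exact ⟨(good_frob S).irr χ h, h⟩
  have h3 : ((Irr (Multiplicative (ZMod Q))).filter
      (· ∉ triv (Multiplicative (ZMod Q)))).card = Q - 1 := by
    have h4 := Finset.card_filter_add_card_filter_not (s := Irr (Multiplicative (ZMod Q)))
      (· ∈ triv (Multiplicative (ZMod Q)))
    rw [h2, Finset.card_singleton, card_Irr_comm] at h4
    have h5 : Nat.card (Multiplicative (ZMod Q)) = Q := Nat.card_zmod Q
    omega
  congr 1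
  · have h6 : ∀ θ ∈ (Irr (Multiplicative (ZMod Q))).filter
        (· ∉ triv (Multiplicative (ZMod Q))), w (Nat.card S * ndeg θ) = w (Nat.card S) := by
      intro θ hθ
      rw [ndeg_comm (mem_Irr.mp (Finset.mem_filter.mp hθ).1), mul_one]
    rw [Finset.sum_congr rfl h6, Finset.sum_const, h3, nsmul_eq_mul]
  · rw [h2, Finset.sum_singleton]
    have h6 : ndeg (fun _ : Multiplicative (ZMod Q) => (1 : ℂ)) = 1 := ndeg_eq (by simp)
    rw [h6, map_one, nsmul_eq_mul, mul_one]
    push_cast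
    rfl

end

end Pool.Agent.K3h3.MK
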