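import Pool.Agent.K3h3.MK.Cliff

/-!
# Extension of the invariant characters of the base group of a regular wreath product
-/

set_option autoImplicit false
set_option linter.unusedSectionVars false
set_option linter.style.haveILetI false

open scoped BigOperators Classical

noncomputable section

namespace Pool.Agent.K3h3.MK

open Pool.Agent.Helper884 Pool.Agent.H254R3.IN Pool.Agent.Q288.MB SemidirectProduct
open Pool.Agent.Q90.WR (irr_of_norm deg_pos irr_comp B_nat irr_nontrivial)
open Pool.Agent.K3h3.KB
open Pool.Agent.Y62 (tw tw_irr)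
open IC (Irr)
open Representation

/-- a representation with an irreducible restriction is irreducible -/
theorem irr_of_comp {N W V : Type} [Group N] [Group W] [Fintype N] [Fintype W] [AddCommGroup V]
    [Module ℂ V] [FiniteDimensional ℂ V] (i : N →* W) (τ : Representation ℂ W V)
    (h : IsIrr fun n => τ.character (i n)) : IsIrr τ.character := by
  let τ' : Representation ℂ N V := τ.comp i
  have e : (fun n => τ.character (i n)) = τ'.character := rfl
  rw [e] at h
  have h1 : (Module.finrank ℂ (IntertwiningMap τ' τ') : ℂ) = 1 := by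
    haveI : Invertible (Nat.card N : ℂ) := invertibleOfNonzero IC.cardG_ne
    rw [← card_inv_mul_sum_char_mul_char_eq_finrank]
    have := IC.B_irr h h
    rw [if_pos rfl] at this
    exact this
  have h1' : Module.finrank ℂ (IntertwiningMap τ' τ') = 1 := by exact_mod_cast h1
  have h2 : IC.B τ.character τ.character = Module.finrank ℂ (IntertwiningMap τ τ) := by
    haveI : Invertible (Nat.card W : ℂ) := invertibleOfNonzero IC.cardG_ne
    rw [← card_inv_mul_sum_char_mul_char_eq_finrank]
    rfl
  let R : IntertwiningMap τ τ →ₗ[ℂ] IntertwiningMap τ' τ' :=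
    { toFun := fun f => ⟨f.toLinearMap, fun g => f.2 (i g)⟩
      map_add' := fun f g => rfl
      map_smul' := fun c f => rfl }
  have hR : Function.Injective R := by
    intro f g hfg
    apply IntertwiningMap.ext
    exact congrArg (fun F : IntertwiningMap τ' τ' => F.toLinearMap) hfg
  haveI : FiniteDimensional ℂ (IntertwiningMap τ' τ') :=
    Module.finite_of_finrank_pos (by rw [h1']; exact Nat.one_pos)
  have h3 := LinearMap.finrank_le_finrank_of_injective hR
  rw [h1'] at h3
  haveI : FiniteDimensional ℂ (IntertwiningMap τ τ) := FiniteDimensional.of_injective R hR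
  have hV : Nontrivial V := by
    obtain ⟨n, hn, h4⟩ := deg_pos h
    rw [char_one] at h4
    have h5 : Module.finrank ℂ V = n := by exact_mod_cast h4
    exact Module.nontrivial_of_finrank_pos (R := ℂ) (by rw [h5]; exact hn)
  have hnt : Nontrivial (IntertwiningMap τ τ) := by
    refine ⟨⟨⟨LinearMap.id, fun g => rfl⟩, ⟨0, fun g => by simp⟩, fun h => ?_⟩⟩
    have h4 : (LinearMap.id : V →ₗ[ℂ] V) = 0 := congrArg IntertwiningMap.toLinearMap h
    obtain ⟨v, hv⟩ := exists_ne (0 : V)
    exact hv (by simpa using congrArg (fun f : V →ₗ[ℂ] V => f v) h4)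
  have h4 : 0 < Module.finrank ℂ (IntertwiningMap τ τ) := Module.finrank_pos
  have h5 : Module.finrank ℂ (IntertwiningMap τ τ) = 1 := by omega
  refine irr_of_norm (IC.isClass_char _) ?_ (by rw [h2, h5]; simp) ⟨Module.finrank ℂ V, char_one τ⟩
  rintro χ ⟨U, _, _, _, σ, _, rfl⟩
  obtain ⟨n, hn⟩ := B_nat τ σ
  exact ⟨n, by rw [hn]; norm_cast⟩

section wr

variable (G S : Type) [Group G] [Group S]

/-- the regular action of `S` on `G ^ S` -/
def rAct : S →* MulAut (S → G) where
  toFun s :=
    { toFun := fun g i => g (s⁻¹ * i)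
      invFun := fun g i => g (s * i)
      left_inv := fun g => by
        funext i
        simp
      right_inv := fun g => by
        funext i
        simp
      map_mul' := fun _ _ => rfl }
  map_one' := by
    ext g i
    simp
  map_mul' s t := by
    ext g i
    simp [mul_assoc]

/-- the regular wreath product -/
abbrev Wr : Type := (S → G) ⋊[rAct G S] S

variable {G S}

theorem rAct_apply (s : S) (g : S → G) (i : S) : rAct G S s g i = g (s⁻¹ * i) := rfl

variable [Fintype S] [Fintype G]

theorem bt_rAct (ψ : S → G → ℂ) (s : S) :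
    (fun g => bt ψ (rAct G S s g)) = bt (fun i => ψ (s * i)) := by
  funext g
  unfold bt
  refine Fintype.prod_equiv (Equiv.mulLeft s⁻¹) _ _ fun i => ?_
  rw [rAct_apply]
  simp

/-- the tensor power of a matrix representation, extended to the wreath product -/
def tMat {n : ℕ} (R : G →* Matrix (Fin n) (Fin n) ℂ) (x : Wr G S) :
    Matrix (S → Fin n) (S → Fin n) ℂ :=
  fun α β => ∏ i, R (x.left i) (α i) (β (x.right⁻¹ * i))

theorem tMat_mul {n : ℕ} (R : G →* Matrix (Fin n) (Fin n) ℂ) (x y : Wr G S) :
    tMat R (x * y) = tMat R x * tMat R y := by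
  ext α γ
  rw [Matrix.mul_apply]
  unfold tMat
  have h1 : ∀ β : S → Fin n, ∏ i, R (y.left i) (β i) (γ (y.right⁻¹ * i)) =
      ∏ i, R (y.left (x.right⁻¹ * i)) (β (x.right⁻¹ * i)) (γ ((x.right * y.right)⁻¹ * i)) := by
    intro β
    refine (Fintype.prod_equiv (Equiv.mulLeft x.right⁻¹) _ _ fun i => ?_).symm
    simp [mul_assoc]
  simp_rw [h1, ← Finset.prod_mul_distrib]
  have h2 : ∑ β : S → Fin n, ∏ i, R (x.left i) (α i) (β (x.right⁻¹ * i)) *
        R (y.left (x.right⁻¹ * i)) (β (x.right⁻¹ * i)) (γ ((x.right * y.right)⁻¹ * i)) =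
      ∑ β : S → Fin n, ∏ i, R (x.left i) (α i) (β i) *
        R (y.left (x.right⁻¹ * i)) (β i) (γ ((x.right * y.right)⁻¹ * i)) := by
    refine Fintype.sum_equiv (Equiv.arrowCongr (Equiv.mulLeft x.right) (Equiv.refl _)) _ _
      fun β => ?_
    simp [Equiv.arrowCongr]
  rw [h2]
  have h3 := Finset.prod_univ_sum (fun _ : S => (Finset.univ : Finset (Fin n))) fun i b =>
    R (x.left i) (α i) b * R (y.left (x.right⁻¹ * i)) b (γ ((x.right * y.right)⁻¹ * i))
  rw [Fintype.piFinset_univ] at h3
  rw [← h3]
  refine Finset.prod_congr rfl fun i _ => ?_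
  rw [mul_left, mul_right, Pi.mul_apply, rAct_apply, map_mul, Matrix.mul_apply]

theorem tMat_one {n : ℕ} (R : G →* Matrix (Fin n) (Fin n) ℂ) :
    tMat R (1 : Wr G S) = 1 := by
  ext α β
  unfold tMat
  simp only [one_left, one_right, Pi.one_apply, map_one, inv_one, one_mul, Matrix.one_apply]
  by_cases h : α = β
  · subst h
    simp
  · rw [if_neg h]
    obtain ⟨i, hi⟩ := Function.ne_iff.mp h
    exact Finset.prod_eq_zero (Finset.mem_univ i) (by rw [if_neg hi])

/-- the representation -/
def tRep {n : ℕ} (R : G →* Matrix (Fin n) (Fin n) ℂ) :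
    Representation ℂ (Wr G S) ((S → Fin n) → ℂ) where
  toFun x := Matrix.toLin' (tMat R x)
  map_one' := by
    rw [tMat_one, Matrix.toLin'_one]
    rfl
  map_mul' x y := by
    rw [tMat_mul, Matrix.toLin'_mul]
    rfl

theorem tRep_char {n : ℕ} (R : G →* Matrix (Fin n) (Fin n) ℂ) (g : S → G) :
    (tRep (S := S) R).character (inl g) = ∏ i, (R (g i)).trace := by
  change LinearMap.trace ℂ _ (Matrix.toLin' (tMat R (inl g))) = _
  rw [Matrix.trace_toLin'_eq]
  unfold Matrix.trace Matrix.diag tMat
  simp only [left_inl, right_inl, inv_one, one_mul]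
  have h3 := Finset.prod_univ_sum (fun _ : S => (Finset.univ : Finset (Fin n))) fun i b =>
    R (g i) b b
  rw [Fintype.piFinset_univ] at h3
  rw [← h3]

/-- **The tensor powers of the irreducible characters extend.** -/
theorem exists_ext {θ : G → ℂ} (hθ : IsIrr θ) :
    ∃ f : Wr G S → ℂ, IsIrr f ∧ ∀ g, f (inl g) = bt (fun _ : S => θ) g := by
  obtain ⟨V, _, _, _, ρ, hr, rfl⟩ := id hθ
  let b := Module.finBasis ℂ V
  let R : G →* Matrix (Fin (Module.finrank ℂ V)) (Fin (Module.finrank ℂ V)) ℂ :=
    ((LinearMap.toMatrixAlgEquiv b).toAlgHom.toMonoidHom : (V →ₗ[ℂ] V) →* _).comp ρ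
  have hR : ∀ g, (R g).trace = ρ.character g := by
    intro g
    change (LinearMap.toMatrix b b (ρ g)).trace = LinearMap.trace ℂ V (ρ g)
    rw [LinearMap.trace_eq_matrix_trace ℂ b]
  have h1 : (fun g : S → G => (tRep (S := S) R).character ((inl : (S → G) →* Wr G S) g)) =
      bt (fun _ : S => ρ.character) := by
    funext g
    rw [tRep_char]
    unfold bt
    exact Finset.prod_congr rfl fun i _ => hR (g i)
  refine ⟨(tRep R).character, irr_of_comp (inl : (S → G) →* Wr G S) _ ?_, fun g => congrFun h1 g⟩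
  rw [h1]
  exact bt_irr fun _ => hθ

end wr

end Pool.Agent.K3h3.MK
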