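import Pool.Agent.K3h3.MK.Ring

/-!
# One congruence decides: the main argument
-/

set_option autoImplicit false
set_option linter.unusedSectionVars false
set_option linter.style.haveILetI false

open scoped BigOperators Classical

noncomputable section

namespace Pool.Agent.K3h3.MK

open Pool.Agent.Helper884 Pool.Agent.H254R3.IN Pool.Agent.Q288.MB SemidirectProduct
open Pool.Agent.Q90.WR (irr_of_norm deg_pos irr_comp B_nat norm_equiv)
open Pool.Agent.K3h3.KB
open IC (Irr)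

section general

variable {R : Type} [CommRing R] (w : ℕ →* R) {p : ℕ} [hp : Fact p.Prime]

/-- the normalizer of the Sylow `p`-subgroup of a group of order prime to `p` -/
theorem wt_NN_of_coprime {H : Type} [Group H] [Finite H] (hH : ¬ p ∣ Nat.card H) (Q : Sylow p H) :
    wt w (NN Q) = wt w H := by
  have h1 : (Q : Subgroup H) = ⊥ := by
    have h2 := Q.card_eq_multiplicity
    rw [Nat.factorization_eq_zero_of_not_dvd hH, pow_zero] at h2
    exact Subgroup.card_eq_one.mp h2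
  have h3 : NN Q = ⊤ := by
    unfold NN
    rw [h1, Subgroup.normalizer_eq_top_iff]
    infer_instance
  rw [h3]
  exact wt_congr w Subgroup.topEquiv

theorem del_prod {G H : Type} [Group G] [Group H] [Finite G] [Finite H] (hH : ¬ p ∣ Nat.card H)
    (P : Sylow p G) (R' : Sylow p (G × H)) :
    wt w (G × H) - wt w (NN R') = (wt w G - wt w (NN P)) * wt w H := by
  obtain ⟨R0, ⟨e⟩⟩ := exists_prod P (default : Sylow p H)
  rw [wt_NN w R' R0, wt_congr w e, wt_prod, wt_prod, wt_NN_of_coprime w hH]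
  ring

end general

variable (p : ℕ) [hp : Fact p.Prime]

theorem sum_cl_pow {G : Type} [Group G] [Fintype G] {q : ℕ} (hq : 0 < q) :
    ∑ θ ∈ Irr G, cl p (ndeg θ) ^ q = psi p q (wt (cl p) G) := by
  rw [wt_eq, map_sum]
  exact Finset.sum_congr rfl fun θ _ => (psi_cl p hq _).symm

theorem wt_wr_psi {q : ℕ} (hq : q.Prime) {S : Type} [CommGroup S] [Finite S] (hS : Nat.card S = q)
    (G : Type) [Group G] [Finite G] :
    (q : RR p) * wt (cl p) (Wr G S) = cl p q * (wt (cl p) G ^ q - psi p q (wt (cl p) G)) +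
      (q : RR p) ^ 2 * psi p q (wt (cl p) G) := by
  haveI := Fintype.ofFinite G
  haveI := Fintype.ofFinite S
  have h1 := wt_wr (cl p) (G := G) (S := S) (by rw [hS]; exact hq)
  rw [hS, sum_cl_pow p hq.pos] at h1
  exact h1

/-- the step for groups -/
theorem step_grp {q j : ℕ} (hq : q.Prime) (hqp : q ≠ p) (h2 : ¬ q ∣ (p - 1) / 2) (hj : 1 ≤ j)
    {S : Type} [CommGroup S] [Finite S] (hS : Nat.card S = q) {G : Type} [Group G] [Finite G]
    (P : Sylow p G) (R : Sylow p (Wr G S))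
    (h : ((q ^ j : ℕ) : RR p) ∣ wt (cl p) G - wt (cl p) (NN P))
    (h' : ((q ^ j : ℕ) : RR p) ∣ wt (cl p) (Wr G S) - wt (cl p) (NN R)) :
    ((q ^ (j + 1) : ℕ) : RR p) ∣ wt (cl p) G - wt (cl p) (NN P) := by
  have hpS : ¬ p ∣ Nat.card S := by
    rw [hS]
    intro h0
    exact hqp ((Nat.prime_dvd_prime_iff_eq hp.out hq).mp h0).symm
  obtain ⟨R0, ⟨e⟩⟩ := exists_wr hpS P
  refine step p hq hqp h2 hj (wt_wr_psi p hq hS G) ?_ ?_ h h'
  · rw [wt_NN (cl p) R R0, wt_congr (cl p) e]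
    exact wt_wr_psi p hq hS (NN P)
  · intro v hv
    rw [sub_eq_add_neg, MonoidAlgebra.coeff_add, Finsupp.add_apply, coeff_nonsq p G hv]
    have h1 := coeff_nonsq p (NN P) hv
    have h3 : (-wt (cl p) (NN P)).coeff v = -(wt (cl p) (NN P)).coeff v := rfl
    rw [h3, h1]
    simp

/-- `D = 0` passes to wreath products -/
theorem del_wr_eq_zero {q : ℕ} (hq : q.Prime) (hqp : q ≠ p)
    {S : Type} [CommGroup S] [Finite S] (hS : Nat.card S = q) {G : Type} [Group G] [Finite G]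
    (P : Sylow p G) (R : Sylow p (Wr G S)) (h : wt (cl p) G = wt (cl p) (NN P)) :
    wt (cl p) (Wr G S) = wt (cl p) (NN R) := by
  have hpS : ¬ p ∣ Nat.card S := by
    rw [hS]
    intro h0
    exact hqp ((Nat.prime_dvd_prime_iff_eq hp.out hq).mp h0).symm
  obtain ⟨R0, ⟨e⟩⟩ := exists_wr hpS P
  have h1 := wt_wr_psi p hq hS G
  have h2 := wt_wr_psi p hq hS (NN P)
  rw [← h, ← h1, ← wt_congr (cl p) e, wt_NN (cl p) R0 R] at h2
  exact (natCast_mul_inj p hq.ne_zero h2).symm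

/-! ### the groups `C_Q ⋊ C_a` -/

/-- a group with a cyclic normal subgroup with cyclic quotient -/
def IsMetacyclic (H : Type) [Group H] : Prop :=
  ∃ N : Subgroup H, ∃ _ : N.Normal, IsCyclic N ∧ IsCyclic (H ⧸ N)

theorem metacyclic_sd {N S : Type} [Group N] [Group S] [IsCyclic N] [IsCyclic S]
    (φ : S →* MulAut N) : IsMetacyclic (N ⋊[φ] S) := by
  refine ⟨(rightHom : N ⋊[φ] S →* S).ker, inferInstance, ?_, ?_⟩
  · rw [← range_inl_eq_ker_rightHom]
    exact isCyclic_of_surjective (inl : N →* N ⋊[φ] S).rangeRestrict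
      (MonoidHom.rangeRestrict_surjective _)
  · exact isCyclic_of_surjective
      (QuotientGroup.quotientKerEquivOfSurjective (rightHom : N ⋊[φ] S →* S)
        rightHom_surjective).symm (MulEquiv.surjective _)

/-- a subgroup of given order -/
theorem exists_units {Q a : ℕ} [hQ : Fact Q.Prime] (ha : a ∣ Q - 1) :
    ∃ S : Subgroup (ZMod Q)ˣ, Nat.card S = a := by
  obtain ⟨g, hg⟩ := IsCyclic.exists_ofOrder_eq_natCard (α := (ZMod Q)ˣ)
  have h1 : Nat.card (ZMod Q)ˣ = Q - 1 := by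
    rw [Nat.card_eq_fintype_card, ZMod.card_units]
  have hpos : Q - 1 ≠ 0 := by
    have := hQ.out.two_le
    omega
  obtain ⟨k, hk⟩ := ha
  have hk0 : k ≠ 0 := by
    rintro rfl
    omega
  refine ⟨Subgroup.zpowers (g ^ k), ?_⟩
  rw [Nat.card_zpowers, orderOf_pow' g hk0, hg, h1, hk, Nat.gcd_eq_right (Dvd.intro_left a rfl),
    Nat.mul_div_cancel _ (Nat.pos_of_ne_zero hk0)]

/-- **The groups `C_Q ⋊ C_a`.** -/
theorem exists_frob {Q a k : ℕ} [hQ : Fact Q.Prime] (ha0 : a ≠ 0) (hk : Q = 1 + a * k)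
    (hap : a < p) (hQp : Q ≠ p) : ∃ (H : Type) (_ : Group H) (_ : Finite H), IsMetacyclic H ∧
      Nat.card H = Q * a ∧ ¬ p ∣ Nat.card H ∧ wt (cl p) H = (k : RR p) * cl p a + (a : RR p) := by
  obtain ⟨S, hS⟩ := exists_units (Q := Q) (a := a) ⟨k, by omega⟩
  haveI : Fintype (ZMod Q) := ZMod.fintype Q
  refine ⟨Multiplicative (ZMod Q) ⋊[uAct (ZMod Q) S] S, inferInstance, inferInstance,
    metacyclic_sd _, ?_, ?_, ?_⟩
  · rw [SemidirectProduct.card, hS]
    congr 1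
    exact Nat.card_zmod Q
  · rw [SemidirectProduct.card, hS]
    have h1 : Nat.card (Multiplicative (ZMod Q)) = Q := Nat.card_zmod Q
    rw [h1]
    intro h
    rcases (Nat.Prime.dvd_mul hp.out).mp h with h | h
    · exact hQp ((Nat.prime_dvd_prime_iff_eq hp.out hQ.out).mp h).symm
    · exact absurd (Nat.le_of_dvd (Nat.pos_of_ne_zero ha0) h) (by omega)
  · apply natCast_mul_inj p ha0
    have h1 := wt_frob (cl p) S
    rw [hS] at h1
    rw [h1]
    have h2 : Q - 1 = a * k := by omega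
    rw [h2]
    push_cast
    ring

/-- Dirichlet: primes `Q = 1 + a k` with `q ∤ k` -/
theorem exists_prime {q a : ℕ} (hq : q.Prime) (ha0 : a ≠ 0) (hev : q = 2 → Even a) (C : ℕ) :
    ∃ Q k : ℕ, Q.Prime ∧ C < Q ∧ Q = 1 + a * k ∧ ¬ q ∣ k := by
  let k₀ : ℕ := if q ∣ 1 + a then 2 else 1
  have hk1 : ¬ q ∣ k₀ := by
    intro h
    by_cases h1 : q ∣ 1 + a
    · have h2 : k₀ = 2 := if_pos h1
      rw [h2] at h
      have h3 : q = 2 := (Nat.prime_dvd_prime_iff_eq hq Nat.prime_two).mp h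
      have h4 := hev h3
      rw [h3] at h1
      obtain ⟨m, hm⟩ := h4
      obtain ⟨n, hn⟩ := h1
      omega
    · have h2 : k₀ = 1 := if_neg h1
      rw [h2] at h
      exact hq.one_lt.ne' (Nat.dvd_one.mp h)
  have hk2 : ¬ q ∣ 1 + k₀ * a := by
    intro h
    by_cases h1 : q ∣ 1 + a
    · have h2 : k₀ = 2 := if_pos h1
      rw [h2] at h
      have h3 : q ∣ 2 * (1 + a) := Dvd.dvd.mul_left h1 2
      have h4 : q ∣ 1 := by
        have h5 : 2 * (1 + a) = (1 + 2 * a) + 1 := by ring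
        rw [h5] at h3
        exact (Nat.dvd_add_right h).mp h3
      exact hq.one_lt.ne' (Nat.dvd_one.mp h4)
    · have h2 : k₀ = 1 := if_neg h1
      rw [h2, one_mul] at h
      exact h1 h
  have hcop : (1 + k₀ * a).Coprime (q * a) := by
    apply Nat.Coprime.mul_right
    · exact ((Nat.Prime.coprime_iff_not_dvd hq).mpr hk2).symm
    · rw [Nat.Coprime, Nat.gcd_comm, mul_comm, Nat.gcd_add_mul_left_right]
      simp
  obtain ⟨Q, hQC, hQp, hQm⟩ := Nat.forall_exists_prime_gt_and_modEq (max C (1 + k₀ * a))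
    (q := q * a) (a := 1 + k₀ * a) (mul_ne_zero hq.ne_zero ha0) hcop
  have hlt : 1 + k₀ * a ≤ Q := ((le_max_right _ _).trans hQC.le)
  obtain ⟨m, hm⟩ := (Nat.modEq_iff_dvd' hlt).mp hQm.symm
  refine ⟨Q, k₀ + q * m, hQp, lt_of_le_of_lt (le_max_left _ _) hQC, ?_, ?_⟩
  · have : Q = 1 + k₀ * a + q * a * m := by omega
    rw [this]
    ring
  · intro h
    exact hk1 ((Nat.dvd_add_left (Dvd.intro m rfl)).mp h)

/-- even representatives -/
theorem exists_rep {q : ℕ} (hqp : q ≠ p) (u : (ZMod p)ˣ) :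
    ∃ a : ℕ, a ≠ 0 ∧ a < p ∧ (q = 2 → Even a) ∧ ∃ h : (a : ZMod p) ≠ 0, (Units.mk0 (a : ZMod p) h) ^ 2 = u ^ 2 := by
  have hp0 := hp.out.pos
  haveI : NeZero p := ⟨hp.out.ne_zero⟩
  let a₀ : ℕ := (u : ZMod p).val
  have h1 : ((a₀ : ℕ) : ZMod p) = u := ZMod.natCast_zmod_val _
  have h2 : a₀ < p := ZMod.val_lt _
  have h3 : a₀ ≠ 0 := by
    intro h
    rw [h, Nat.cast_zero] at h1
    exact u.ne_zero h1.symm
  by_cases hc : q = 2 ∧ ¬ Even a₀
  · obtain ⟨rfl, hodd⟩ := hc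
    have hpo : Odd p := hp.out.odd_of_ne_two (Ne.symm hqp)
    have h4 : ((p - a₀ : ℕ) : ZMod p) = -u := by
      rw [Nat.cast_sub h2.le, h1, ZMod.natCast_self, zero_sub]
    have h5 : ((p - a₀ : ℕ) : ZMod p) ≠ 0 := by
      rw [h4]
      exact neg_ne_zero.mpr u.ne_zero
    refine ⟨p - a₀, by omega, by omega, fun _ => ?_, h5, ?_⟩
    · rw [Nat.not_even_iff_odd] at hodd
      exact Nat.Odd.sub_odd hpo hodd
    · ext
      simp only [Units.val_pow_eq_pow_val, Units.val_mk0]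
      rw [h4, neg_sq]
  · refine ⟨a₀, h3, h2, fun h => ?_, by rw [h1]; exact u.ne_zero, ?_⟩
    · by_contra h4
      exact hc ⟨h, h4⟩
    · ext
      simp only [Units.val_pow_eq_pow_val, Units.val_mk0]
      rw [h1]

theorem coeff_mul_single' (x : RR p) (u v : (ZMod p)ˣ) :
    (x * MonoidAlgebra.single u 1).coeff v = x.coeff (v * u⁻¹) := by
  rw [MonoidAlgebra.coeff_mul_single_eq_coeff_mul (v * u⁻¹), mul_one]
  intro m _
  exact eq_mul_inv_iff_mul_eq.symm

/-- **The base step.** -/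
theorem base_step {q : ℕ} (hq : q.Prime) (hqp : q ≠ p) (b : (ZMod p)ˣ) (C : ℕ) {G : Type}
    [Group G] [Finite G] (P : Sylow p G)
    (H : ∀ (H : Type) [Group H] [Finite H], IsMetacyclic H → ¬ p ∣ Nat.card H → C ≤ Nat.card H →
      ∀ R : Sylow p (G × H), (q : ℤ) ∣ (wt (cl p) (G × H) - wt (cl p) (NN R)).coeff (b ^ 2)) :
    ((q ^ 1 : ℕ) : RR p) ∣ wt (cl p) G - wt (cl p) (NN P) := by
  set D := wt (cl p) G - wt (cl p) (NN P) with hD
  -- the coefficients of the products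
  have key : ∀ a k Q : ℕ, Q.Prime → max C (max q p) < Q → Q = 1 + a * k → a ≠ 0 → a < p →
      ∀ h : (a : ZMod p) ≠ 0, (q : ℤ) ∣ (k : ℤ) * D.coeff (b ^ 2 * ((Units.mk0 (a : ZMod p) h) ^ 2)⁻¹) +
        (a : ℤ) * D.coeff (b ^ 2) := by
    intro a k Q hQ hlt hQk ha0 hap h
    haveI : Fact Q.Prime := ⟨hQ⟩
    have hQp : Q ≠ p := by
      rintro rfl
      have := (le_max_right q Q).trans (le_max_right C (max q Q))
      omega
    obtain ⟨H', i1, i2, h1, h2, h3, h4⟩ := exists_frob p ha0 hQk hap hQp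
    have hC : C ≤ Nat.card H' := by
      rw [h2]
      have := le_max_left C (max q p)
      have h5 : Q ≤ Q * a := Nat.le_mul_of_pos_right _ (Nat.pos_of_ne_zero ha0)
      omega
    have h5 := H H' h1 h3 hC default
    rw [del_prod (cl p) h3 P, ← hD, h4, mul_add] at h5
    have e1 : (D * ((k : RR p) * cl p a)).coeff (b ^ 2) =
        (k : ℤ) * D.coeff (b ^ 2 * ((Units.mk0 (a : ZMod p) h) ^ 2)⁻¹) := by
      rw [mul_left_comm, coeff_natCast_mul, cl_apply p h, coeff_mul_single']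
    have e2 : (D * (a : RR p)).coeff (b ^ 2) = (a : ℤ) * D.coeff (b ^ 2) := by
      rw [mul_comm, coeff_natCast_mul]
    rw [MonoidAlgebra.coeff_add, Finsupp.add_apply, e1, e2] at h5
    exact h5
  -- the coefficient at `b ^ 2`
  have hqz : Prime (q : ℤ) := Nat.prime_iff_prime_int.mp hq
  have hb : (q : ℤ) ∣ D.coeff (b ^ 2) := by
    obtain ⟨Q, hQlt, hQ⟩ := Nat.exists_infinite_primes (max C (max q p) + 1)
    have hone : ((1 : ℕ) : ZMod p) ≠ 0 := by simp
    have h1 := key 1 (Q - 1) Q hQ (by omega) (by have := hQ.two_le; omega) one_ne_zero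
      hp.out.one_lt hone
    have e : (Units.mk0 ((1 : ℕ) : ZMod p) hone) = 1 := by
      ext
      simp
    rw [e, one_pow, inv_one, mul_one, ← add_mul] at h1
    have h2 : ((Q - 1 : ℕ) : ℤ) + ((1 : ℕ) : ℤ) = (Q : ℤ) := by
      have := hQ.two_le
      omega
    rw [h2] at h1
    rcases hqz.dvd_or_dvd h1 with h3 | h3
    · exfalso
      have h4 : q ∣ Q := by exact_mod_cast h3
      have h5 := (Nat.prime_dvd_prime_iff_eq hq hQ).mp h4
      have := (le_max_left q p).trans (le_max_right C (max q p))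
      omega
    · exact h3
  rw [pow_one]
  apply dvd_of_coeff
  intro v
  by_cases hv : ∃ u, u ^ 2 = v
  · obtain ⟨u, rfl⟩ := hv
    obtain ⟨a, ha0, hap, hev, h, ha⟩ := exists_rep p hqp (b * u⁻¹)
    obtain ⟨Q, k, hQ, hlt, hQk, hk⟩ := exists_prime hq ha0 hev (max C (max q p))
    have h1 := key a k Q hQ hlt hQk ha0 hap h
    have e : b ^ 2 * ((Units.mk0 (a : ZMod p) h) ^ 2)⁻¹ = u ^ 2 := by
      rw [ha, mul_pow, inv_pow, mul_inv, inv_inv, mul_inv_cancel_left]
    rw [e] at h1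
    have h2 : (q : ℤ) ∣ (k : ℤ) * D.coeff (u ^ 2) := (dvd_add_left (Dvd.dvd.mul_left hb _)).mp h1
    rcases hqz.dvd_or_dvd h2 with h3 | h3
    · exact absurd (by exact_mod_cast h3) hk
    · exact h3
  · push Not at hv
    have h1 := coeff_nonsq p G hv
    have h2 := coeff_nonsq p (NN P) hv
    have h3 : D.coeff v = (wt (cl p) G).coeff v - (wt (cl p) (NN P)).coeff v := rfl
    rw [h3, h1, h2, sub_zero]
    exact dvd_zero _

/-- **The main argument.** -/
theorem main {q : ℕ} (hq : q.Prime) (hqp : q ≠ p) (h2 : ¬ q ∣ (p - 1) / 2) (b : (ZMod p)ˣ) (C : ℕ)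
    {S : Type} [CommGroup S] [Finite S] (hS : Nat.card S = q)
    (𝒢 : (G : Type) → [Group G] → Prop)
    (hprod : ∀ (G H : Type) [Group G] [Finite G] [Group H] [Finite H], 𝒢 G → IsMetacyclic H →
      ¬ p ∣ Nat.card H → 𝒢 (G × H))
    (hwr : ∀ (G : Type) [Group G] [Finite G], 𝒢 G → 𝒢 (Wr G S))
    (H : ∀ (G : Type) [Group G] [Finite G], 𝒢 G → C ≤ Nat.card G → ∀ P : Sylow p G,
      (q : ℤ) ∣ (wt (cl p) G - wt (cl p) (NN P)).coeff (b ^ 2))
    (G : Type) [Group G] [Finite G] (hG : 𝒢 G) (P : Sylow p G) :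
    wt (cl p) G = wt (cl p) (NN P) := by
  have h1 : ∀ j : ℕ, ∀ (G : Type) [Group G] [Finite G], 𝒢 G → ∀ P : Sylow p G,
      ((q ^ (j + 1) : ℕ) : RR p) ∣ wt (cl p) G - wt (cl p) (NN P) := by
    intro j
    induction j with
    | zero =>
      intro G _ _ hG P
      refine base_step p hq hqp b C P fun H' _ _ h1 h3 hC R => H _ (hprod G H' hG h1 h3) ?_ R
      rw [Nat.card_prod]
      exact hC.trans (Nat.le_mul_of_pos_left _ Nat.card_pos)
    | succ j ih =>
      intro G _ _ hG P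
      exact step_grp p hq hqp h2 (Nat.succ_le_succ (Nat.zero_le j)) hS P default (ih G hG P)
        (ih _ (hwr G hG) _)
  rw [← sub_eq_zero]
  ext v
  change (wt (cl p) G - wt (cl p) (NN P)).coeff v = 0
  by_contra hne
  obtain ⟨j, hj⟩ : ∃ j : ℕ, ((wt (cl p) G - wt (cl p) (NN P)).coeff v).natAbs < q ^ j :=
    ⟨_, Nat.lt_pow_self hq.one_lt⟩
  have h3 := coeff_of_dvd p (h1 j G hG P) v
  have h4 : q ^ (j + 1) ∣ ((wt (cl p) G - wt (cl p) (NN P)).coeff v).natAbs := by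
    rw [← Int.natCast_dvd]
    exact h3
  have h5 := Nat.le_of_dvd (Int.natAbs_pos.mpr hne) h4
  have h6 : q ^ j ≤ q ^ (j + 1) := Nat.pow_le_pow_right hq.pos (Nat.le_succ j)
  omega

end Pool.Agent.K3h3.MK
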