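import Pool.Agent.K3h3.MK.Syl

/-!
# The group ring: classes of degrees modulo `p` up to sign
-/

set_option autoImplicit false
set_option linter.unusedSectionVars false
set_option linter.style.haveILetI false

open scoped BigOperators Classical

noncomputable section

namespace Pool.Agent.K3h3.MK

open Pool.Agent.Helper884 Pool.Agent.H254R3.IN Pool.Agent.Q288.MB SemidirectProduct
open Pool.Agent.Q90.WR (irr_of_norm deg_pos irr_comp B_nat)
open Pool.Agent.K3h3.KB
open IC (Irr)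

variable (p : ℕ) [hp : Fact p.Prime]

/-- the group ring of the units modulo `p` -/
abbrev RR : Type := MonoidAlgebra ℤ (ZMod p)ˣ

/-- the class of a degree: its square modulo `p` -/
def cls (d : ℕ) : RR p := if h : (d : ZMod p) = 0 then 0 else
  MonoidAlgebra.single ((Units.mk0 (d : ZMod p) h) ^ 2) 1

theorem cls_of_ne {d : ℕ} (h : (d : ZMod p) ≠ 0) :
    cls p d = MonoidAlgebra.single ((Units.mk0 (d : ZMod p) h) ^ 2) 1 := by
  unfold cls
  rw [dif_neg h]

/-- the class as a multiplicative map -/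
def cl : ℕ →* RR p where
  toFun := cls p
  map_one' := by
    have h : ((1 : ℕ) : ZMod p) ≠ 0 := by simp
    rw [cls_of_ne p h]
    have e : (Units.mk0 ((1 : ℕ) : ZMod p) h) = 1 := by
      ext
      simp
    rw [e, one_pow]
    rfl
  map_mul' a b := by
    by_cases ha : (a : ZMod p) = 0
    · have h : ((a * b : ℕ) : ZMod p) = 0 := by rw [Nat.cast_mul, ha, zero_mul]
      unfold cls
      rw [dif_pos h, dif_pos ha, zero_mul]
    · by_cases hb : (b : ZMod p) = 0
      · have h : ((a * b : ℕ) : ZMod p) = 0 := by rw [Nat.cast_mul, hb, mul_zero]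
        unfold cls
        rw [dif_pos h, dif_pos hb, mul_zero]
      · have h : ((a * b : ℕ) : ZMod p) ≠ 0 := by
          rw [Nat.cast_mul]
          exact mul_ne_zero ha hb
        rw [cls_of_ne p h, cls_of_ne p ha, cls_of_ne p hb, MonoidAlgebra.single_mul_single, mul_one]
        congr 1
        rw [← mul_pow]
        congr 1
        ext
        simp

theorem cl_apply {d : ℕ} (h : (d : ZMod p) ≠ 0) :
    cl p d = MonoidAlgebra.single ((Units.mk0 (d : ZMod p) h) ^ 2) 1 := cls_of_ne p h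

/-- the characters of degree prime to `p` -/
def X (G : Type) [Group G] : Type := {χ : G → ℂ // IsIrr χ ∧ (ndeg χ : ZMod p) ≠ 0}

/-- the class of the degree -/
def kap {G : Type} [Group G] (χ : X p G) : (ZMod p)ˣ := (Units.mk0 (ndeg χ.1 : ZMod p) χ.2.2) ^ 2

instance {G : Type} [Group G] [Finite G] : Finite (X p G) := by
  haveI := Fintype.ofFinite G
  have h : {χ : G → ℂ | IsIrr χ}.Finite := IC.irr_finite
  exact (h.subset fun χ (hχ : IsIrr χ ∧ (ndeg χ : ZMod p) ≠ 0) => hχ.1).to_subtype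

instance {G : Type} [Group G] [Finite G] : Fintype (X p G) := Fintype.ofFinite _

theorem wt_cl (G : Type) [Group G] [Finite G] :
    wt (cl p) G = ∑ χ : X p G, MonoidAlgebra.single (kap p χ) (1 : ℤ) := by
  haveI := Fintype.ofFinite G
  rw [wt_eq]
  rw [← Finset.sum_filter_add_sum_filter_not (Irr G) fun χ => (ndeg χ : ZMod p) = 0]
  have h1 : ∑ χ ∈ (Irr G).filter (fun χ => (ndeg χ : ZMod p) = 0), cl p (ndeg χ) = 0 := by
    refine Finset.sum_eq_zero fun χ hχ => ?_
    have h := (Finset.mem_filter.mp hχ).2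
    change cls p _ = 0
    unfold cls
    rw [dif_pos h]
  rw [h1, zero_add]
  symm
  refine Finset.sum_bij (fun χ _ => χ.1) ?_ ?_ ?_ ?_
  · intro χ _
    exact Finset.mem_filter.mpr ⟨mem_Irr.mpr χ.2.1, χ.2.2⟩
  · intro χ _ χ' _ h
    exact Subtype.ext h
  · intro χ hχ
    rw [Finset.mem_filter, mem_Irr] at hχ
    exact ⟨⟨χ, hχ⟩, Finset.mem_univ _, rfl⟩
  · intro χ _
    rw [cl_apply p χ.2.2]
    rfl

theorem coeff_wt (G : Type) [Group G] [Finite G] (v : (ZMod p)ˣ) :
    (wt (cl p) G).coeff v = Nat.card {χ : X p G // kap p χ = v} := by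
  rw [wt_cl, MonoidAlgebra.coeff_sum, Finsupp.finsetSum_apply]
  simp_rw [MonoidAlgebra.coeff_single, Finsupp.single_apply]
  rw [Finset.sum_ite, Finset.sum_const_zero, add_zero, Finset.sum_const, nsmul_eq_mul, mul_one,
    Nat.card_eq_fintype_card, Fintype.card_subtype]

/-- the coefficients vanish outside of the squares -/
theorem coeff_nonsq (G : Type) [Group G] [Finite G] {v : (ZMod p)ˣ} (hv : ∀ u, u ^ 2 ≠ v) :
    (wt (cl p) G).coeff v = 0 := by
  rw [coeff_wt]
  have : IsEmpty {χ : X p G // kap p χ = v} := ⟨fun χ => hv _ χ.2⟩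
  rw [Nat.card_of_isEmpty]
  rfl

/-- existence of a bijection -/
theorem exists_bij {G H : Type} [Group G] [Group H] [Finite G] [Finite H]
    (h : wt (cl p) G = wt (cl p) H) : ∃ e : X p G ≃ X p H, ∀ χ, kap p (e χ) = kap p χ := by
  have h1 : ∀ v : (ZMod p)ˣ, Nonempty ({χ : X p G // kap p χ = v} ≃ {χ : X p H // kap p χ = v}) := by
    intro v
    have h2 := coeff_wt p G v
    rw [h, coeff_wt p H v] at h2
    have h3 : Nat.card {χ : X p H // kap p χ = v} = Nat.card {χ : X p G // kap p χ = v} := by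
      exact_mod_cast h2
    exact Finite.card_eq.mp h3.symm
  let E := fun v => (h1 v).some
  refine ⟨(Equiv.sigmaFiberEquiv (kap p)).symm.trans ((Equiv.sigmaCongrRight E).trans
    (Equiv.sigmaFiberEquiv (kap p))), fun χ => ?_⟩
  exact (E (kap p χ) ⟨χ, rfl⟩).2

theorem wt_of_bij {G H : Type} [Group G] [Group H] [Finite G] [Finite H]
    (e : X p G ≃ X p H) (he : ∀ χ, kap p (e χ) = kap p χ) : wt (cl p) G = wt (cl p) H := by
  rw [wt_cl, wt_cl]
  exact Fintype.sum_equiv e _ _ fun χ => by rw [he]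

/-! ### the Adams operation -/

/-- the ring endomorphism given by the `q`-th power map of the group -/
def psi (q : ℕ) : RR p →+* RR p := MonoidAlgebra.mapDomainRingHom ℤ (powMonoidHom q : (ZMod p)ˣ →* _)

theorem psi_single (q : ℕ) (u : (ZMod p)ˣ) (a : ℤ) :
    psi p q (MonoidAlgebra.single u a) = MonoidAlgebra.single (u ^ q) a := by
  unfold psi
  simp

theorem psi_cl {q : ℕ} (hq : 0 < q) (d : ℕ) : psi p q (cl p d) = cl p d ^ q := by
  by_cases h : (d : ZMod p) = 0
  · have h1 : cl p d = 0 := by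
      change cls p d = 0
      unfold cls
      rw [dif_pos h]
    rw [h1, map_zero, zero_pow hq.ne']
  · rw [cl_apply p h, psi_single, MonoidAlgebra.single_pow, one_pow]

theorem coeff_natCast_mul (n : ℕ) (x : RR p) (v : (ZMod p)ˣ) :
    ((n : RR p) * x).coeff v = (n : ℤ) * x.coeff v := by
  rw [← nsmul_eq_mul, MonoidAlgebra.coeff_smul, Finsupp.smul_apply, nsmul_eq_mul]

theorem natCast_mul_inj {n : ℕ} (hn : n ≠ 0) {x y : RR p} (h : (n : RR p) * x = (n : RR p) * y) :
    x = y := by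
  ext v
  have := congrArg (fun z : RR p => z.coeff v) h
  simp only [coeff_natCast_mul] at this
  exact mul_left_cancel₀ (by exact_mod_cast hn) this

/-- divisibility of all coefficients -/
theorem dvd_of_coeff {n : ℕ} {x : RR p} (h : ∀ v, (n : ℤ) ∣ x.coeff v) : (n : RR p) ∣ x := by
  choose c hc using h
  refine ⟨MonoidAlgebra.ofCoeff (Finsupp.equivFunOnFinite.symm c), ?_⟩
  ext v
  rw [coeff_natCast_mul, hc v]
  rfl

theorem coeff_of_dvd {n : ℕ} {x : RR p} (h : (n : RR p) ∣ x) (v : (ZMod p)ˣ) :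
    (n : ℤ) ∣ x.coeff v := by
  obtain ⟨y, rfl⟩ := h
  rw [coeff_natCast_mul]
  exact Dvd.intro _ rfl

theorem psi_coeff (q : ℕ) (x : RR p) (v : (ZMod p)ˣ) :
    (psi p q x).coeff v = ∑ u : (ZMod p)ˣ, if u ^ q = v then x.coeff u else 0 := by
  have hx : x = ∑ u : (ZMod p)ˣ, MonoidAlgebra.single u (x.coeff u) := by
    ext v
    rw [MonoidAlgebra.coeff_sum, Finsupp.finsetSum_apply]
    simp_rw [MonoidAlgebra.coeff_single, Finsupp.single_apply]
    simp
  conv_lhs => rw [hx]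
  rw [map_sum, MonoidAlgebra.coeff_sum, Finsupp.finsetSum_apply]
  simp_rw [psi_single, MonoidAlgebra.coeff_single, Finsupp.single_apply]

/-- the `q`-th power map is injective on the squares modulo `p` if `q` does not divide
`(p - 1) / 2` -/
theorem pow_inj {q : ℕ} (hq : q.Prime) (h2 : ¬ q ∣ (p - 1) / 2) {u v : (ZMod p)ˣ}
    (h : (u ^ 2) ^ q = (v ^ 2) ^ q) : u ^ 2 = v ^ 2 := by
  have h3 : ((u * v⁻¹) ^ 2) ^ q = 1 := by
    rw [mul_pow, mul_pow, h, inv_pow, inv_pow, mul_inv_cancel]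
  have hodd : p ≠ 2 := by
    rintro rfl
    exact h2 (dvd_zero q)
  have hp2 := hp.out.two_le
  have hev : 2 ∣ p - 1 := by
    obtain ⟨k, hk⟩ := hp.out.odd_of_ne_two hodd
    exact ⟨k, by omega⟩
  have h4 : ((u * v⁻¹) ^ 2) ^ ((p - 1) / 2) = 1 := by
    rw [← pow_mul, Nat.mul_div_cancel' hev]
    exact ZMod.units_pow_card_sub_one_eq_one p _
  have h5 : orderOf ((u * v⁻¹) ^ 2) ∣ Nat.gcd q ((p - 1) / 2) :=
    Nat.dvd_gcd (orderOf_dvd_of_pow_eq_one h3) (orderOf_dvd_of_pow_eq_one h4)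
  rw [(Nat.Prime.coprime_iff_not_dvd hq).mpr h2, Nat.dvd_one, orderOf_eq_one_iff, mul_pow, inv_pow,
    mul_inv_eq_one] at h5
  exact h5

theorem dvd_of_psi {q n : ℕ} (hq : q.Prime) (h2 : ¬ q ∣ (p - 1) / 2) {x : RR p}
    (hx : ∀ v, (∀ u, u ^ 2 ≠ v) → x.coeff v = 0) (h : (n : RR p) ∣ psi p q x) :
    (n : RR p) ∣ x := by
  apply dvd_of_coeff
  intro v
  by_cases hv : ∃ u, u ^ 2 = v
  · obtain ⟨u, rfl⟩ := hv
    have h3 := coeff_of_dvd p h ((u ^ 2) ^ q)
    rw [psi_coeff, Finset.sum_eq_single (u ^ 2)] at h3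
    · rwa [if_pos rfl] at h3
    · intro t _ ht
      by_cases h4 : ∃ s, s ^ 2 = t
      · obtain ⟨s, rfl⟩ := h4
        rw [if_neg fun h5 => ht (pow_inj p hq h2 h5)]
      · push Not at h4
        rw [hx t h4, ite_self]
    · intro h4
      exact absurd (Finset.mem_univ _) h4
  · push Not at hv
    rw [hx v hv]
    exact dvd_zero _

/-- **The inductive step.** -/
theorem step {q j : ℕ} (hq : q.Prime) (hqp : q ≠ p) (h2 : ¬ q ∣ (p - 1) / 2) (hj : 1 ≤ j)
    {x y x' y' : RR p}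
    (hx : (q : RR p) * x' = cl p q * (x ^ q - psi p q x) + (q : RR p) ^ 2 * psi p q x)
    (hy : (q : RR p) * y' = cl p q * (y ^ q - psi p q y) + (q : RR p) ^ 2 * psi p q y)
    (hs : ∀ v, (∀ u, u ^ 2 ≠ v) → (x - y).coeff v = 0)
    (h : ((q ^ j : ℕ) : RR p) ∣ x - y) (h' : ((q ^ j : ℕ) : RR p) ∣ x' - y') :
    ((q ^ (j + 1) : ℕ) : RR p) ∣ x - y := by
  apply dvd_of_psi p hq h2 hs
  have hne : (q : ZMod p) ≠ 0 := by
    intro h0
    rw [ZMod.natCast_eq_zero_iff] at h0
    exact hqp ((Nat.prime_dvd_prime_iff_eq hp.out hq).mp h0).symm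
  obtain ⟨c, hc⟩ : ∃ c : RR p, c * cl p q = 1 := by
    refine ⟨MonoidAlgebra.single ((Units.mk0 (q : ZMod p) hne) ^ 2)⁻¹ 1, ?_⟩
    rw [cl_apply p hne, MonoidAlgebra.single_mul_single, inv_mul_cancel, mul_one]
    rfl
  obtain ⟨e, he⟩ := h
  obtain ⟨e', he'⟩ := h'
  have hx2 : x = y + ((q ^ j : ℕ) : RR p) * e := by rw [← he]; ring
  haveI : Fact q.Prime := ⟨hq⟩
  obtain ⟨r, hr⟩ := exists_add_pow_prime_eq hq y (((q ^ j : ℕ) : RR p) * e)
  obtain ⟨m, hm⟩ : ∃ m, j * q = j + 1 + m := by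
    have : j + 1 ≤ j * q := by nlinarith [hq.two_le]
    exact ⟨j * q - (j + 1), by omega⟩
  have h3 : x ^ q - y ^ q = ((q ^ (j + 1) : ℕ) : RR p) *
      (((q ^ m : ℕ) : RR p) * e ^ q + y * e * r) := by
    rw [hx2, hr, mul_pow]
    have h4 : (((q ^ j : ℕ) : RR p)) ^ q = ((q ^ (j + 1) : ℕ) : RR p) * ((q ^ m : ℕ) : RR p) := by
      rw [← Nat.cast_pow, ← Nat.cast_mul, ← pow_mul, hm, pow_add]
    rw [h4]
    push_cast
    ring
  have h5 : psi p q (x - y) = ((q ^ j : ℕ) : RR p) * psi p q e := by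
    rw [he, map_mul, map_natCast]
  have h6 : cl p q * psi p q (x - y) = ((q ^ (j + 1) : ℕ) : RR p) *
      (cl p q * (((q ^ m : ℕ) : RR p) * e ^ q + y * e * r) + (q : RR p) * psi p q e - e') := by
    have h7 : (q : RR p) * (x' - y') = ((q ^ (j + 1) : ℕ) : RR p) * e' := by
      rw [he']
      push_cast
      ring
    have h8 : (q : RR p) ^ 2 * psi p q (x - y) = ((q ^ (j + 1) : ℕ) : RR p) *
        ((q : RR p) * psi p q e) := by
      rw [h5]
      push_cast
      ring
    rw [map_sub] at h8 ⊢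
    linear_combination hx - hy + cl p q * h3 + h8 - h7
  refine ⟨c * (cl p q * (((q ^ m : ℕ) : RR p) * e ^ q + y * e * r) + (q : RR p) * psi p q e - e'),
    ?_⟩
  linear_combination c * h6 - psi p q (x - y) * hc

end Pool.Agent.K3h3.MK
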