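import Pool.Agent.K3h3.MK.Cnt
import Pool.Agent.Q90.WR.Tower

/-!
# Sylow subgroups and their normalizers in direct products and in wreath products
-/

set_option autoImplicit false
set_option linter.unusedSectionVars false
set_option linter.style.haveILetI false

open scoped BigOperators Classical

noncomputable section

namespace Pool.Agent.K3h3.MK

open SemidirectProduct
open Pool.Agent.Q90.WR (norm_equiv)

instance sdFinite {N S : Type} [Group N] [Group S] [Finite N] [Finite S] {φ : S →* MulAut N} :
    Finite (N ⋊[φ] S) := Finite.of_equiv _ equivProd.symm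

/-- the normalizer of a Sylow subgroup -/
abbrev NN {p : ℕ} {G : Type} [Group G] (P : Sylow p G) : Subgroup G :=
  Subgroup.normalizer ((P : Subgroup G) : Set G)

section prod

variable {G H : Type} [Group G] [Group H]

theorem normalizer_prod (P : Subgroup G) (Q : Subgroup H) :
    Subgroup.normalizer ((P.prod Q : Subgroup (G × H)) : Set (G × H)) =
      (Subgroup.normalizer (P : Set G)).prod (Subgroup.normalizer (Q : Set H)) := by
  ext ⟨g, h⟩
  rw [Subgroup.mem_prod, Subgroup.mem_normalizer_iff, Subgroup.mem_normalizer_iff,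
    Subgroup.mem_normalizer_iff]
  constructor
  · intro H0
    constructor
    · intro x
      have := H0 (x, 1)
      simpa [Subgroup.mem_prod] using this
    · intro y
      have := H0 (1, y)
      simpa [Subgroup.mem_prod] using this
  · rintro ⟨h1, h2⟩ ⟨x, y⟩
    have h3 := h1 x
    have h4 := h2 y
    simp only [Subgroup.mem_prod, Prod.mk_mul_mk, Prod.inv_mk] at h3 h4 ⊢
    rw [h3, h4]

theorem exists_prod {p : ℕ} [hp : Fact p.Prime] [Finite G] [Finite H] (P : Sylow p G)
    (Q : Sylow p H) : ∃ R : Sylow p (G × H), Nonempty (NN R ≃* NN P × NN Q) := by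
  have h1 : Nat.card ((P : Subgroup G).prod (Q : Subgroup H)) =
      p ^ (Nat.card (G × H)).factorization p := by
    rw [Nat.card_congr (Subgroup.prodEquiv (P : Subgroup G) (Q : Subgroup H)).toEquiv,
      Nat.card_prod, P.card_eq_multiplicity, Q.card_eq_multiplicity, Nat.card_prod,
      Nat.factorization_mul Nat.card_pos.ne' Nat.card_pos.ne', Finsupp.add_apply, pow_add]
  refine ⟨Sylow.ofCard _ h1, ?_⟩
  have h2 : NN (Sylow.ofCard ((P : Subgroup G).prod (Q : Subgroup H)) h1) =
      (NN P).prod (NN Q) := normalizer_prod _ _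
  rw [h2]
  exact ⟨Subgroup.prodEquiv _ _⟩

end prod

section wr

variable {G S : Type} [Group G] [Group S]

/-- the subgroup `P ^ S` of the wreath product -/
def base (P : Subgroup G) : Subgroup (Wr G S) where
  carrier := {x | x.right = 1 ∧ ∀ i, x.left i ∈ P}
  one_mem' := ⟨rfl, fun i => P.one_mem⟩
  mul_mem' := by
    rintro x y ⟨h1, h2⟩ ⟨h3, h4⟩
    refine ⟨by rw [mul_right, h1, h3, one_mul], fun i => ?_⟩
    rw [mul_left, Pi.mul_apply, rAct_apply]
    exact P.mul_mem (h2 i) (h4 _)
  inv_mem' := by
    rintro x ⟨h1, h2⟩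
    refine ⟨by rw [inv_right, h1, inv_one], fun i => ?_⟩
    rw [inv_left, rAct_apply, Pi.inv_apply]
    exact P.inv_mem (h2 _)

theorem mem_base {P : Subgroup G} {x : Wr G S} :
    x ∈ base P ↔ x.right = 1 ∧ ∀ i, x.left i ∈ P := Iff.rfl

theorem conj_right (x y : Wr G S) : (x * y * x⁻¹).right = x.right * y.right * x.right⁻¹ := by
  simp

theorem conj_left (x y : Wr G S) (hy : y.right = 1) (i : S) :
    (x * y * x⁻¹).left i = x.left i * y.left (x.right⁻¹ * i) * (x.left i)⁻¹ := by
  rw [mul_left, mul_left, mul_right, hy, mul_one, inv_left]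
  simp only [Pi.mul_apply, rAct_apply, Pi.inv_apply, inv_inv]
  rw [mul_inv_cancel_left]

theorem mem_normalizer_base {P : Subgroup G} {x : Wr G S} :
    x ∈ Subgroup.normalizer ((base P : Subgroup (Wr G S)) : Set (Wr G S)) ↔
      ∀ i, x.left i ∈ Subgroup.normalizer (P : Set G) := by
  rw [Subgroup.mem_normalizer_iff]
  constructor
  · intro h i
    rw [Subgroup.mem_normalizer_iff]
    intro g
    have h1 := h (inl (Pi.mulSingle (x.right⁻¹ * i) g))
    rw [mem_base, mem_base, conj_right, right_inl, mul_one,
      mul_inv_cancel] at h1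
    simp only [true_and] at h1
    have h2 : (∀ j, (inl (Pi.mulSingle (x.right⁻¹ * i) g) : Wr G S).left j ∈ P) ↔ g ∈ P := by
      rw [left_inl]
      constructor
      · intro h3
        have := h3 (x.right⁻¹ * i)
        rwa [Pi.mulSingle_eq_same] at this
      · intro h3 j
        by_cases hj : j = x.right⁻¹ * i
        · subst hj
          rwa [Pi.mulSingle_eq_same]
        · rw [Pi.mulSingle_eq_of_ne hj]
          exact P.one_mem
    have h3 : (∀ j, (x * inl (Pi.mulSingle (x.right⁻¹ * i) g) * x⁻¹).left j ∈ P) ↔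
        x.left i * g * (x.left i)⁻¹ ∈ P := by
      constructor
      · intro h4
        have := h4 i
        rwa [conj_left _ _ (right_inl _), left_inl, Pi.mulSingle_eq_same] at this
      · intro h4 j
        rw [conj_left _ _ (right_inl _), left_inl]
        by_cases hj : j = i
        · subst hj
          rwa [Pi.mulSingle_eq_same]
        · rw [Pi.mulSingle_eq_of_ne (fun h => hj (mul_left_cancel h)), mul_one, mul_inv_cancel]
          exact P.one_mem
    rw [h2, h3] at h1
    exact h1
  · intro h y
    rw [mem_base, mem_base, conj_right]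
    constructor
    · rintro ⟨h1, h2⟩
      refine ⟨by rw [h1, mul_one, mul_inv_cancel], fun i => ?_⟩
      rw [conj_left x y h1]
      exact (Subgroup.mem_normalizer_iff.mp (h i) _).mp (h2 _)
    · rintro ⟨h1, h2⟩
      have h3 : y.right = 1 := by
        have := congrArg (fun z => x.right⁻¹ * z * x.right) h1
        simpa [mul_assoc] using this
      refine ⟨h3, fun j => ?_⟩
      have h4 := h2 (x.right * j)
      rw [conj_left x y h3, inv_mul_cancel_left] at h4
      exact (Subgroup.mem_normalizer_iff.mp (h _) _).mpr h4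

/-- the normalizer of `P ^ S` is the wreath product of the normalizer of `P` -/
def normEquiv (P : Subgroup G) :
    Subgroup.normalizer ((base P : Subgroup (Wr G S)) : Set (Wr G S)) ≃*
      Wr (Subgroup.normalizer (P : Set G)) S where
  toFun x := ⟨fun i => ⟨x.1.left i, mem_normalizer_base.mp x.2 i⟩, x.1.right⟩
  invFun y := ⟨⟨fun i => (y.left i : G), y.right⟩, mem_normalizer_base.mpr fun i => (y.left i).2⟩
  left_inv _ := rfl
  right_inv _ := rfl
  map_mul' := by
    rintro ⟨x, hx⟩ ⟨y, hy⟩
    rfl

theorem card_base [Finite S] (P : Subgroup G) :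
    Nat.card (base (S := S) P : Subgroup (Wr G S)) = Nat.card P ^ Nat.card S := by
  haveI := Fintype.ofFinite S
  have e : (base (S := S) P : Subgroup (Wr G S)) ≃ (S → P) :=
    { toFun := fun x i => ⟨x.1.left i, x.2.2 i⟩
      invFun := fun g => ⟨⟨fun i => (g i : G), 1⟩, rfl, fun i => (g i).2⟩
      left_inv := fun x => by
        apply Subtype.ext
        ext
        · rfl
        · exact x.2.1.symm
      right_inv := fun g => rfl }
  rw [Nat.card_congr e, Nat.card_fun]

theorem exists_wr {p : ℕ} [hp : Fact p.Prime] [Finite G] [Finite S] (hpS : ¬ p ∣ Nat.card S)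
    (P : Sylow p G) : ∃ R : Sylow p (Wr G S), Nonempty (NN R ≃* Wr (NN P) S) := by
  have h1 : Nat.card (base (S := S) (P : Subgroup G) : Subgroup (Wr G S)) =
      p ^ (Nat.card (Wr G S)).factorization p := by
    rw [card_base, P.card_eq_multiplicity, SemidirectProduct.card, Nat.card_fun,
      Nat.factorization_mul (pow_ne_zero _ Nat.card_pos.ne') Nat.card_pos.ne', Finsupp.add_apply,
      Nat.factorization_eq_zero_of_not_dvd hpS, add_zero, Nat.factorization_pow,
      Finsupp.smul_apply, smul_eq_mul, ← pow_mul, mul_comm]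
  exact ⟨Sylow.ofCard _ h1, ⟨normEquiv _⟩⟩

end wr

/-- the difference of the weighted numbers for `G` and for the normalizer of `P` -/
def del {R : Type} [CommRing R] (w : ℕ →* R) {p : ℕ} {G : Type} [Group G] [Finite G]
    (P : Sylow p G) : R := wt w G - wt w (NN P)

theorem wt_NN {R : Type} [CommRing R] (w : ℕ →* R) {p : ℕ} [Fact p.Prime] {G : Type} [Group G]
    [Finite G] (P Q : Sylow p G) : wt w (NN P) = wt w (NN Q) := by
  obtain ⟨e⟩ := norm_equiv P Q
  exact wt_congr w e

end Pool.Agent.K3h3.MK
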